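import Pool.Agent.Helper43.DB.Goals

set_option autoImplicit false

namespace Pool.Agent.Helper43.DB.CELL

open Pool.Agent.Helper43.DB Pool.Agent.Helper39.Net Function

theorem gaps : G_GAPS := by
  classical
  intro β hβ A
  induction hN : A.card using Nat.strong_induction_on generalizing A with
  | _ N ih =>
  by_cases hsmall : A.card < β
  · refine ⟨∅, by simp, by simp, fun t => ?_⟩
    exact (Finset.card_le_card (Finset.filter_subset _ _)).trans_lt hsmall
  · push Not at hsmall
    obtain ⟨A1, hA1, hc1, hlow⟩ := exists_low (fun a : P3 => ((a 2 : ℤ) : ℝ)) A β hsmall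
    have hne1 : A1.Nonempty := by
      rw [← Finset.card_pos, hc1]; omega
    obtain ⟨m, hm, hmax⟩ := Finset.exists_max_image A1 (fun a => a 2) hne1
    have hsub : (A.filter fun a => m 2 < a 2) ⊆ A \ A1 := by
      intro a ha
      rw [Finset.mem_filter] at ha
      refine Finset.mem_sdiff.2 ⟨ha.1, fun h => ?_⟩
      have := hmax a h
      omega
    have hcard : (A.filter fun a => m 2 < a 2).card ≤ A.card - β := by
      refine (Finset.card_le_card hsub).trans ?_
      rw [Finset.card_sdiff_of_subset hA1, hc1]
    obtain ⟨Q', hQ'c, hQ'm, hQ't⟩ := ih (A.filter fun a => m 2 < a 2).card (by omega) _ rfl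
    have hQgt : ∀ M ∈ Q', m 2 < M := by
      intro M hM
      obtain ⟨a, ha, rfl⟩ := hQ'm M hM
      exact (Finset.mem_filter.1 ha).2
    have hmQ : m 2 ∉ Q' := fun h => lt_irrefl _ (hQgt _ h)
    refine ⟨insert (m 2) Q', ?_, ?_, ?_⟩
    · rw [Finset.card_insert_of_notMem hmQ, add_mul, one_mul]
      omega
    · intro M hM
      rcases Finset.mem_insert.1 hM with rfl | hM
      · exact ⟨m, hA1 hm, rfl⟩
      · obtain ⟨a, ha, h⟩ := hQ'm M hM
        exact ⟨a, (Finset.mem_filter.1 ha).1, h⟩
    · intro t
      -- the count for points above `m 2`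
      have hup : ∀ a : P3, m 2 < a 2 → ((insert (m 2) Q').filter (· < a 2)).card =
          (Q'.filter (· < a 2)).card + 1 := by
        intro a ha
        rw [Finset.filter_insert, if_pos ha, Finset.card_insert_of_notMem]
        exact fun h => hmQ (Finset.mem_filter.1 h).1
      have hdown : ∀ a : P3, a 2 ≤ m 2 → ((insert (m 2) Q').filter (· < a 2)).card = 0 := by
        intro a ha
        rw [Finset.card_eq_zero, Finset.filter_eq_empty_iff]
        intro M hM hlt
        rcases Finset.mem_insert.1 hM with h1 | hM
        · omega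
        · have := hQgt M hM
          omega
      rcases Nat.eq_zero_or_pos t with rfl | ht
      · have hss : (A.filter fun a => a 2 ∉ insert (m 2) Q' ∧
            ((insert (m 2) Q').filter (· < a 2)).card = 0) ⊆ A1.erase m := by
          intro a ha
          rw [Finset.mem_filter] at ha
          obtain ⟨haA, haQ, hac⟩ := ha
          have hne : a 2 ≠ m 2 := fun h => haQ (by rw [h]; exact Finset.mem_insert_self _ _)
          have hlt : a 2 < m 2 := by
            by_contra hcon
            push Not at hcon
            have h1 : m 2 < a 2 := lt_of_le_of_ne hcon (Ne.symm hne)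
            rw [hup a h1] at hac
            omega
          refine Finset.mem_erase.2 ⟨fun h => hne (by rw [h]), ?_⟩
          by_contra hna
          have := hlow m hm a haA hna
          have h2 : m 2 ≤ a 2 := by exact_mod_cast this
          omega
        have := Finset.card_le_card hss
        rw [Finset.card_erase_of_mem hm, hc1] at this
        omega
      · obtain ⟨t', rfl⟩ : ∃ t', t = t' + 1 := ⟨t - 1, by omega⟩
        refine lt_of_le_of_lt (Finset.card_le_card ?_) (hQ't t')
        intro a ha
        rw [Finset.mem_filter] at ha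
        obtain ⟨haA, haQ, hac⟩ := ha
        have hgt : m 2 < a 2 := by
          by_contra hcon
          push Not at hcon
          rw [hdown a hcon] at hac
          omega
        refine Finset.mem_filter.2 ⟨Finset.mem_filter.2 ⟨haA, hgt⟩,
          fun h => haQ (Finset.mem_insert_of_mem h), ?_⟩
        rw [hup a hgt] at hac
        omega

theorem pos_mono {A B A' B' : Finset P3} {m0 m1 : ℤ} {J : ℕ} {q : P3} (hA : A ⊆ A') (hB : B ⊆ B')
    (h : Pos A B m0 m1 J q) : Pos A' B' m0 m1 J q := by
  obtain ⟨p, hp, h⟩ := h
  exact ⟨p, Finset.union_subset_union hA hB hp, h⟩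

theorem cell (hnear : G_NEAR) : G_CELL := by
  classical
  intro Λ J A B m0 m1 hA hB
  obtain ⟨Q, hQc, -, hQt⟩ := gaps (2 ^ Λ) Nat.one_le_two_pow A
  let cl : P3 → ℕ := fun a => (Q.filter (· < a 2)).card
  choose hL hU h1 h2 h3 using fun t : ℕ => hnear Λ J
    (A.filter fun a => a 2 ∉ Q ∧ (Q.filter (· < a 2)).card = t) (B.filter fun b => cl b = t) m0 m1
    (hQt t) (fun a ha => hA a (Finset.mem_filter.1 ha).1) (fun b hb => hB b (Finset.mem_filter.1 hb).1)
  refine ⟨Q, fun a => hL (cl a) a, fun b => hU (cl b) b, hQc, fun a => h1 _ a, fun b => h2 _ b, ?_⟩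
  intro a ha b hb hab
  by_cases hM : ∃ M ∈ Q, a 2 ≤ M ∧ M ≤ b 2
  · exact Or.inl hM
  · right
    push Not at hM
    have hcl : cl b = cl a := by
      refine congrArg Finset.card (Finset.filter_congr fun M hMQ => ?_)
      constructor
      · intro h
        by_contra hcon
        push Not at hcon
        have := hM M hMQ hcon
        omega
      · intro h
        omega
    have haQ : a 2 ∉ Q := fun h => by
      have := hM (a 2) h le_rfl
      omega
    obtain ⟨q, hq1, hq2, hq3, hq4⟩ := h3 (cl a) a (Finset.mem_filter.2 ⟨ha, haQ, rfl⟩) b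
      (Finset.mem_filter.2 ⟨hb, hcl⟩) hab
    refine ⟨q, hq1, ?_, pos_mono (Finset.filter_subset _ _) (Finset.filter_subset _ _) hq3, hq4⟩
    simp only [hcl]
    exact hq2

end Pool.Agent.Helper43.DB.CELL
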