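import Pool.Agent.Helper43.DB.Goals

set_option autoImplicit false

namespace Pool.Agent.Helper43.DB.DOM

open Pool.Agent.Helper43.DB Pool.Agent.Helper39.Net Function

theorem dom : G_DOM := by
  classical
  intro V
  rcases V.eq_empty_or_nonempty with rfl | hV
  · exact ⟨∅, subset_rfl, by simp, by simp⟩
  -- good points
  let good : P3 → Prop := fun x => ∃ z ∈ V, ∀ y ∈ V, x 2 ≤ y 2 → y 0 ≤ z 0 ∧ y 1 ≤ z 1
  by_cases hall : ∀ x ∈ V, good x
  · obtain ⟨x, hx, hmin⟩ := Finset.exists_min_image V (fun x => x 2) hV
    obtain ⟨z, hz, hzy⟩ := hall x hx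
    refine ⟨{z}, by simpa using hz, by simp, fun y hy => ⟨z, by simp, 2, fun i hi => ?_⟩⟩
    have h := hzy y hy (hmin y hy)
    fin_cases i
    · exact h.1
    · exact h.2
    · exact absurd rfl hi
  · push Not at hall
    obtain ⟨x0, hx0, hx0b⟩ := hall
    have hne : (V.filter fun x => ¬ good x).Nonempty := ⟨x0, Finset.mem_filter.2 ⟨hx0, hx0b⟩⟩
    obtain ⟨n, hn, hmax⟩ := Finset.exists_max_image _ (fun x => x 2) hne
    rw [Finset.mem_filter] at hn
    have hne2 : (V.filter fun y => n 2 ≤ y 2).Nonempty := ⟨n, Finset.mem_filter.2 ⟨hn.1, le_rfl⟩⟩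
    obtain ⟨e1, he1, he1m⟩ := Finset.exists_max_image _ (fun x => x 0) hne2
    obtain ⟨e2, he2, he2m⟩ := Finset.exists_max_image _ (fun x => x 1) hne2
    rw [Finset.mem_filter] at he1 he2
    -- points of level at most that of `n`
    have hlow : ∀ x ∈ V, x 2 ≤ n 2 → ∃ z ∈ ({e1, e2} : Finset P3), ∃ e : Fin 3,
        ∀ i, i ≠ e → x i ≤ z i := by
      intro x hx hxn
      by_cases h0 : x 0 ≤ e1 0
      · refine ⟨e1, by simp, 1, fun i hi => ?_⟩
        fin_cases i
        · exact h0
        · exact absurd rfl hi
        · exact hxn.trans he1.2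
      · by_cases h1 : x 1 ≤ e2 1
        · refine ⟨e2, by simp, 0, fun i hi => ?_⟩
          fin_cases i
          · exact absurd rfl hi
          · exact h1
          · exact hxn.trans he2.2
        · exfalso
          push Not at h0 h1
          refine hn.2 ⟨x, hx, fun y hy hny => ?_⟩
          have hm : y ∈ V.filter fun y => n 2 ≤ y 2 := Finset.mem_filter.2 ⟨hy, hny⟩
          exact ⟨(he1m y hm).trans h0.le, (he2m y hm).trans h1.le⟩
    by_cases hup : (V.filter fun y => n 2 < y 2).Nonempty
    · obtain ⟨w, hw, hwm⟩ := Finset.exists_min_image _ (fun x => x 2) hup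
      rw [Finset.mem_filter] at hw
      have hgood : good w := by
        by_contra hb
        have := hmax w (Finset.mem_filter.2 ⟨hw.1, hb⟩)
        have h2 := hw.2
        omega
      obtain ⟨z, hz, hzy⟩ := hgood
      refine ⟨{e1, e2, z}, ?_, Finset.card_le_three, fun x hx => ?_⟩
      · intro p hp
        simp only [Finset.mem_insert, Finset.mem_singleton] at hp
        rcases hp with rfl | rfl | rfl
        · exact he1.1
        · exact he2.1
        · exact hz
      · by_cases hxn : x 2 ≤ n 2
        · obtain ⟨p, hp, e, he⟩ := hlow x hx hxn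
          refine ⟨p, ?_, e, he⟩
          simp only [Finset.mem_insert, Finset.mem_singleton] at hp ⊢
          rcases hp with h | h
          · exact Or.inl h
          · exact Or.inr (Or.inl h)
        · push Not at hxn
          refine ⟨z, by simp, 2, fun i hi => ?_⟩
          have h := hzy x hx (hwm x (Finset.mem_filter.2 ⟨hx, hxn⟩))
          fin_cases i
          · exact h.1
          · exact h.2
          · exact absurd rfl hi
    · refine ⟨{e1, e2}, ?_, (Finset.card_le_two).trans (by norm_num), fun x hx => ?_⟩
      · intro p hp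
        simp only [Finset.mem_insert, Finset.mem_singleton] at hp
        rcases hp with rfl | rfl
        · exact he1.1
        · exact he2.1
      · refine hlow x hx ?_
        by_contra hc
        push Not at hc
        exact hup ⟨x, Finset.mem_filter.2 ⟨hx, hc⟩⟩

theorem cross_half (hdom : G_DOM) (A B : Finset P3) (m : P3) (hA : ∀ a ∈ A, a ≤ m)
    (hB : ∀ b ∈ B, m ≤ b) : ∃ H : Finset P3, H.card ≤ 9 ∧ ∀ a ∈ A, ∃ q ∈ H,
    (∃ p ∈ A, ∃ e, q = update p e (m e)) ∧ a ≤ q ∧ ∀ b ∈ B, q ≤ b := by
  classical
  obtain ⟨D, hD, hDc, hdo⟩ := hdom A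
  refine ⟨(D ×ˢ (Finset.univ : Finset (Fin 3))).image fun t => update t.1 t.2 (m t.2), ?_, ?_⟩
  · refine Finset.card_image_le.trans ?_
    rw [Finset.card_product, Finset.card_univ, Fintype.card_fin]
    omega
  · intro a ha
    obtain ⟨z, hz, e, he⟩ := hdo a ha
    refine ⟨update z e (m e), Finset.mem_image.2 ⟨(z, e), by simp [hz], rfl⟩,
      ⟨z, hD hz, e, rfl⟩, ?_, ?_⟩
    · intro i
      by_cases hi : i = e
      · subst hi
        rw [update_self]
        exact hA a ha i
      · rw [update_of_ne hi]
        exact he i hi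
    · intro b hb i
      by_cases hi : i = e
      · subst hi
        rw [update_self]
        exact hB b hb i
      · rw [update_of_ne hi]
        exact (hA z (hD hz) i).trans (hB b hb i)

theorem cross' (hdom : G_DOM) : G_CROSS := by
  classical
  intro A B m hA hB
  refine ⟨cross_half hdom A B m hA hB, ?_⟩
  obtain ⟨H, hH, hq⟩ := cross_half hdom (B.image fun b => -b) (A.image fun a => -a) (-m)
    (by
      intro b hb
      obtain ⟨b', hb', rfl⟩ := Finset.mem_image.1 hb
      exact neg_le_neg (hB b' hb'))
    (by
      intro a ha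
      obtain ⟨a', ha', rfl⟩ := Finset.mem_image.1 ha
      exact neg_le_neg (hA a' ha'))
  refine ⟨H.image fun q => -q, Finset.card_image_le.trans hH, fun b hb => ?_⟩
  obtain ⟨q, hqH, ⟨p, hp, e, rfl⟩, hbq, hqa⟩ := hq (-b) (Finset.mem_image_of_mem _ hb)
  obtain ⟨p', hp', rfl⟩ := Finset.mem_image.1 hp
  refine ⟨-(update (-p') e ((-m) e)), Finset.mem_image_of_mem _ hqH, ⟨p', hp', e, ?_⟩, ?_, ?_⟩
  · funext i
    by_cases hi : i = e
    · subst hi
      simp
    · simp [update_of_ne hi]
  · have := neg_le_neg hbq
    simpa using this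
  · intro a ha
    have := neg_le_neg (hqa (-a) (Finset.mem_image_of_mem _ ha))
    simpa using this

theorem cross : G_CROSS := cross' dom

theorem path : G_PATH := by
  classical
  intro Q
  induction Q using Finset.induction_on_max with
  | empty => exact ⟨∅, by simp, by simp, by simp⟩
  | insert c s hc ih =>
    obtain ⟨F, hF, hFQ, hch⟩ := ih
    have hcs : c ∉ s := fun h => lt_irrefl _ (hc c h)
    rcases s.eq_empty_or_nonempty with rfl | hne
    · refine ⟨∅, by simp, by simp, ?_⟩
      intro M hM M' hM' _
      simp only [insert_empty_eq, Finset.mem_singleton] at hM hM'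
      subst hM; subst hM'
      exact Relation.ReflTransGen.refl
    · refine ⟨insert (s.max' hne, c) F, ?_, ?_, ?_⟩
      · rw [Finset.card_insert_of_notMem hcs]
        exact (Finset.card_insert_le _ _).trans (by omega)
      · intro p hp
        rcases Finset.mem_insert.1 hp with rfl | hp
        · exact ⟨Finset.mem_insert_of_mem (s.max'_mem hne), Finset.mem_insert_self _ _⟩
        · exact ⟨Finset.mem_insert_of_mem (hFQ p hp).1, Finset.mem_insert_of_mem (hFQ p hp).2⟩
      · have hmono : ∀ M M' : ℤ, Chain (F : Set (ℤ × ℤ)) M M' →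
            Chain ((insert (s.max' hne, c) F : Finset (ℤ × ℤ)) : Set (ℤ × ℤ)) M M' := by
          intro M M' h
          refine Relation.ReflTransGen.mono ?_ _ _ h
          intro a b hab
          exact ⟨Finset.mem_coe.2 (Finset.mem_insert_of_mem (Finset.mem_coe.1 hab.1)), hab.2⟩
        intro M hM M' hM' hle
        rcases Finset.mem_insert.1 hM with h1 | h1
        · rcases Finset.mem_insert.1 hM' with h2 | h2
          · subst h1; subst h2
            exact Relation.ReflTransGen.refl
          · exfalso
            have := hc M' h2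
            omega
        · rcases Finset.mem_insert.1 hM' with h2 | h2
          · rw [h2]
            refine Relation.ReflTransGen.tail
              (hmono M (s.max' hne) (hch M h1 _ (s.max'_mem hne) (s.le_max' _ h1))) ?_
            exact ⟨by simp, (hc _ (s.max'_mem hne)).le⟩
          · exact hmono _ _ (hch M h1 M' h2 hle)

end Pool.Agent.Helper43.DB.DOM
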