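import Pool.Agent.Helper43.DB.Goals

set_option autoImplicit false

namespace Pool.Agent.Helper43.DB.NUM

open Pool.Agent.Helper43.DB

theorem num1 (r J : ℕ) : 2 * (2 ^ (tau r J) + 1) ^ (2 * r) ≤ 2 ^ (lamb r J) := by
  have h1 : 2 ^ (tau r J) + 1 ≤ 2 ^ (tau r J + 1) := by
    rw [pow_succ]
    have := Nat.one_le_two_pow (n := tau r J)
    omega
  calc 2 * (2 ^ (tau r J) + 1) ^ (2 * r) ≤ 2 * (2 ^ (tau r J + 1)) ^ (2 * r) :=
        Nat.mul_le_mul_left _ (Nat.pow_le_pow_left h1 _)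
    _ = 2 ^ (lamb r J) := by
        unfold lamb
        rw [← pow_mul, pow_succ 2 (2 * r * (tau r J + 1))]
        ring

theorem tau_le (r J : ℕ) (hr : 1 ≤ r) (hJ : 1 ≤ J) : tau r J ≤ J := by
  unfold tau
  have h1 : Nat.log 2 J < J := Nat.log_lt_self 2 (by omega)
  have h2 : Nat.log 2 J / (4 * r) ≤ Nat.log 2 J := Nat.div_le_self _ _
  omega

theorem pow_bound (r J : ℕ) (hr : 1 ≤ r) (hJ : 1 ≤ J) :
    (2 ^ (tau r J) + 1) ^ (2 * r) ≤ 16 ^ r * J := by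
  have h1 : 2 ^ (tau r J) + 1 ≤ 2 ^ (tau r J + 1) := by
    rw [pow_succ]
    have := Nat.one_le_two_pow (n := tau r J)
    omega
  have h2 : (tau r J + 1) * (2 * r) ≤ 4 * r + Nat.log 2 J := by
    unfold tau
    have h3 : Nat.log 2 J / (4 * r) * (4 * r) ≤ Nat.log 2 J := Nat.div_mul_le_self _ _
    have h4 : (Nat.log 2 J / (4 * r) + 1 + 1) * (2 * r) =
        Nat.log 2 J / (4 * r) * (2 * r) + 4 * r := by ring
    have h5 : Nat.log 2 J / (4 * r) * (2 * r) ≤ Nat.log 2 J / (4 * r) * (4 * r) :=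
      Nat.mul_le_mul_left _ (by omega)
    omega
  calc (2 ^ (tau r J) + 1) ^ (2 * r) ≤ (2 ^ (tau r J + 1)) ^ (2 * r) := Nat.pow_le_pow_left h1 _
    _ = 2 ^ ((tau r J + 1) * (2 * r)) := by rw [← pow_mul]
    _ ≤ 2 ^ (4 * r + Nat.log 2 J) := Nat.pow_le_pow_right (by norm_num) h2
    _ = 16 ^ r * 2 ^ (Nat.log 2 J) := by
        rw [pow_add, pow_mul]
        norm_num
    _ ≤ 16 ^ r * J := Nat.mul_le_mul_left _ (Nat.pow_log_le_self 2 (by omega))

theorem tau_lower (r J : ℕ) (hr : 1 ≤ r) (hJ : 1 ≤ J) :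
    1 + Real.log J / r ≤ 8 * (tau r J : ℝ) := by
  have hr0 : (0 : ℝ) < r := by exact_mod_cast hr
  have hr1 : (1 : ℝ) ≤ r := by exact_mod_cast hr
  have h1 : Nat.log 2 J < 4 * r * (Nat.log 2 J / (4 * r) + 1) :=
    Nat.lt_mul_div_succ _ (by omega)
  have h2 : (Nat.log 2 J : ℝ) + 1 ≤ 4 * r * (tau r J : ℝ) := by
    unfold tau
    have : Nat.log 2 J + 1 ≤ 4 * r * (Nat.log 2 J / (4 * r) + 1) := h1
    exact_mod_cast this
  have h3 : Real.log J ≤ (Nat.log 2 J : ℝ) + 1 := by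
    have h4 : (J : ℝ) ≤ 2 ^ (Nat.log 2 J + 1) := by
      have := (Nat.lt_pow_succ_log_self (b := 2) (by norm_num) J).le
      exact_mod_cast this
    have h5 := Real.log_le_log (by exact_mod_cast hJ) h4
    rw [Real.log_pow] at h5
    have h6 : Real.log 2 ≤ 1 := by
      have := Real.log_two_lt_d9
      linarith
    push_cast at h5
    have h7 : (0 : ℝ) ≤ (Nat.log 2 J : ℝ) + 1 := by positivity
    nlinarith
  have h8 : (1 : ℝ) ≤ tau r J := by
    unfold tau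
    push_cast
    have : (0 : ℝ) ≤ ((Nat.log 2 J / (4 * r) : ℕ) : ℝ) := Nat.cast_nonneg _
    linarith
  have h9 : Real.log J / r ≤ 4 * (tau r J : ℝ) := by
    rw [div_le_iff₀ hr0]
    nlinarith
  linarith

theorem num : G_NUM := by
  intro r J hr hJ
  refine ⟨num1 r J, ?_⟩
  have hr0 : (0 : ℝ) < r := by exact_mod_cast hr
  have hJ0 : (1 : ℝ) ≤ J := by exact_mod_cast hJ
  set τ := tau r J with hτdef
  have hτ1 : 1 ≤ τ := by rw [hτdef]; unfold tau; exact Nat.le_add_left 1 _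
  have hτ0 : (1 : ℝ) ≤ τ := by exact_mod_cast hτ1
  have hτJ : (τ : ℝ) ≤ J := by exact_mod_cast tau_le r J hr hJ
  have hlow := tau_lower r J hr hJ
  rw [← hτdef] at hlow
  have hlog : 0 ≤ Real.log J := Real.log_nonneg hJ0
  -- the first factor
  have f1 : (((J / τ + 1 : ℕ) : ℝ)) ≤ 2 * J / τ := by
    have h1 : ((J / τ : ℕ) : ℝ) ≤ (J : ℝ) / τ := Nat.cast_div_le
    have h2 : (1 : ℝ) ≤ (J : ℝ) / τ := by
      rw [le_div_iff₀ (by linarith)]
      linarith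
    have h3 : 2 * (J : ℝ) / τ = J / τ + J / τ := by ring
    push_cast
    linarith
  -- the second factor
  have f2 : ((J ^ 2 * (27 * lamb r J + 2) + 6 * (J + 1) * (2 ^ τ + 1) ^ (2 * r) : ℕ) : ℝ) ≤
      149 * 16 ^ r * τ * (J : ℝ) ^ 2 := by
    have h1 : 27 * lamb r J + 2 ≤ 137 * (r * τ) := by
      unfold lamb
      rw [← hτdef]
      have h3 : r ≤ r * τ := Nat.le_mul_of_pos_right _ hτ1
      have h4 : 2 * r * (τ + 1) = 2 * (r * τ) + 2 * r := by ring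
      rw [h4]
      omega
    have h2 : (2 ^ τ + 1) ^ (2 * r) ≤ 16 ^ r * J := by
      rw [hτdef]; exact pow_bound r J hr hJ
    have h3 : r ≤ 16 ^ r := (Nat.lt_pow_self (by norm_num)).le
    have h5 : J ^ 2 * (27 * lamb r J + 2) + 6 * (J + 1) * (2 ^ τ + 1) ^ (2 * r) ≤
        149 * 16 ^ r * τ * J ^ 2 := by
      calc J ^ 2 * (27 * lamb r J + 2) + 6 * (J + 1) * (2 ^ τ + 1) ^ (2 * r)
          ≤ J ^ 2 * (137 * (16 ^ r * τ)) + 6 * (2 * J) * (16 ^ r * J * τ) := by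
            refine Nat.add_le_add (Nat.mul_le_mul_left _ (h1.trans ?_)) (Nat.mul_le_mul ?_ ?_)
            · exact Nat.mul_le_mul_left _ (Nat.mul_le_mul_right _ h3)
            · omega
            · exact h2.trans (Nat.le_mul_of_pos_right _ hτ1)
        _ = 149 * 16 ^ r * τ * J ^ 2 := by ring
    exact_mod_cast h5
  have hTT : (TT r τ J (lamb r J) : ℝ) ≤ (2 * J / τ) ^ r * (149 * 16 ^ r * τ * (J : ℝ) ^ 2) := by
    unfold TT
    rw [Nat.cast_mul, Nat.cast_pow]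
    exact mul_le_mul (pow_le_pow_left₀ (Nat.cast_nonneg _) f1 _) f2 (Nat.cast_nonneg _)
      (by positivity)
  have hpow : (1 + Real.log J / r) ^ (r - 1) ≤ (8 * (τ : ℝ)) ^ (r - 1) :=
    pow_le_pow_left₀ (by positivity) hlow _
  obtain ⟨q, rfl⟩ : ∃ q, r = q + 1 := ⟨r - 1, by omega⟩
  rw [Nat.add_sub_cancel] at hpow ⊢
  have hτpos : (0 : ℝ) < τ := by linarith
  calc (TT (q + 1) τ J (lamb (q + 1) J) : ℝ) * (1 + Real.log J / ((q + 1 : ℕ) : ℝ)) ^ q
      ≤ ((2 * J / τ) ^ (q + 1) * (149 * 16 ^ (q + 1) * τ * (J : ℝ) ^ 2)) * (8 * (τ : ℝ)) ^ q :=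
        mul_le_mul hTT hpow (by positivity) (by positivity)
    _ = 149 * 32 ^ (q + 1) * 8 ^ q * (J : ℝ) ^ (q + 1 + 2) := by
        rw [show (32 : ℝ) = 2 * 16 by norm_num, mul_pow (2 : ℝ) 16, div_pow, mul_pow (2 : ℝ) (J : ℝ),
          mul_pow (8 : ℝ) (τ : ℝ)]
        field_simp
        ring
    _ ≤ 40000 ^ (q + 1) * (J : ℝ) ^ (q + 1 + 2) := by
        refine mul_le_mul_of_nonneg_right ?_ (by positivity)
        have h1 : (149 : ℝ) * 32 ^ (q + 1) * 8 ^ q = 149 * 32 * 256 ^ q := by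
          rw [show (256 : ℝ) = 32 * 8 by norm_num, mul_pow, pow_succ]; ring
        rw [h1, pow_succ]
        have h2 : (256 : ℝ) ^ q ≤ 40000 ^ q := pow_le_pow_left₀ (by norm_num) (by norm_num) _
        have h3 : (0 : ℝ) ≤ 40000 ^ q := by positivity
        nlinarith

end Pool.Agent.Helper43.DB.NUM
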