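import Pool.Agent.Helper43.DB.SUM
import Pool.Agent.Helper43.DB.NUM
import Pool.Agent.Helper83.DB.TRANS

set_option autoImplicit false

namespace Pool.Agent.Helper43.DB.FIN

open Pool.Agent.Helper43.DB Pool.Agent.Helper39.Net

/-- The number of edges per point in `ℓ_1^(r+3)`. -/
def T1 (r L : ℕ) : ℕ := 2 ^ (r + 4) * TT r (tau r (L + 1)) (L + 1) (lamb r (L + 1))

theorem exNet_one (r L : ℕ) (hr : 1 ≤ r) : ExNet (dOne (d := r + 3)) L (T1 r L) := by
  refine Pool.Agent.Helper83.DB.TRANS.t r L _ ?_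
  refine SUM.netT r _ _ _ ?_ (NUM.num r (L + 1) hr (by omega)).1
  unfold tau
  exact Nat.le_add_left 1 _

/-- The bound for `T1`. -/
theorem T1_le (r L : ℕ) (hr : 1 ≤ r) (x : ℝ) (hx : 0 ≤ x)
    (hxL : x ≤ Real.log ((L : ℝ) + 1)) :
    (T1 r L : ℝ) * (1 + x / ((r : ℝ) + 3)) ^ (r - 1) ≤
      2 ^ (r + 4) * 40000 ^ r * ((L : ℝ) + 1) ^ (r + 2) := by
  have h := (NUM.num r (L + 1) hr (by omega)).2
  have hr0 : (0 : ℝ) < r := by exact_mod_cast hr
  push_cast at h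
  have h1 : 1 + x / ((r : ℝ) + 3) ≤ 1 + Real.log ((L : ℝ) + 1) / r := by
    have h2 : x / ((r : ℝ) + 3) ≤ x / r := div_le_div_of_nonneg_left hx hr0 (by linarith)
    have h3 : x / (r : ℝ) ≤ Real.log ((L : ℝ) + 1) / r := div_le_div_of_nonneg_right hxL hr0.le
    linarith
  have h4 : (1 + x / ((r : ℝ) + 3)) ^ (r - 1) ≤ (1 + Real.log ((L : ℝ) + 1) / r) ^ (r - 1) :=
    pow_le_pow_left₀ (by positivity) h1 _
  unfold T1
  push_cast
  calc (2 : ℝ) ^ (r + 4) * (TT r (tau r (L + 1)) (L + 1) (lamb r (L + 1)) : ℝ) *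
        (1 + x / ((r : ℝ) + 3)) ^ (r - 1)
      ≤ 2 ^ (r + 4) * (TT r (tau r (L + 1)) (L + 1) (lamb r (L + 1)) : ℝ) *
        (1 + Real.log ((L : ℝ) + 1) / r) ^ (r - 1) := by gcongr
    _ = 2 ^ (r + 4) * ((TT r (tau r (L + 1)) (L + 1) (lamb r (L + 1)) : ℝ) *
        (1 + Real.log ((L : ℝ) + 1) / r) ^ (r - 1)) := by ring
    _ ≤ 2 ^ (r + 4) * (40000 ^ r * ((L : ℝ) + 1) ^ (r + 2)) := by gcongr
    _ = _ := by ring

theorem log_log_nonneg {n : ℕ} (hn : 3 ≤ n) : 0 ≤ Real.log (Real.log n) := by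
  refine Real.log_nonneg ?_
  rw [Real.le_log_iff_exp_le (by positivity)]
  have := Real.exp_one_lt_d9
  have h3 : (3 : ℝ) ≤ n := by exact_mod_cast hn
  linarith

/-- `T1` at `clog 2 n`. -/
theorem T1_clog (r n : ℕ) (hr : 1 ≤ r) (hn : 3 ≤ n) :
    (T1 r (Nat.clog 2 n) : ℝ) ≤ 800000 ^ (r + 3) * Real.log n ^ (r + 2) /
      (1 + Real.log (Real.log n) / ((r : ℝ) + 3)) ^ (r - 1) := by
  have hll := log_log_nonneg hn
  have hn1 : (1 : ℝ) < n := by exact_mod_cast (by omega : 1 < n)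
  have hl0 : 0 < Real.log n := Real.log_pos hn1
  have h1 : Real.log n ≤ (Nat.clog 2 n : ℝ) + 1 := by
    have h2 : (n : ℝ) ≤ 2 ^ (Nat.clog 2 n) := by
      exact_mod_cast Nat.le_pow_clog (by norm_num) n
    have h3 := Real.log_le_log (by linarith) h2
    rw [Real.log_pow] at h3
    have h4 : Real.log 2 ≤ 1 := by have := Real.log_two_lt_d9; linarith
    have h5 : (0 : ℝ) ≤ Nat.clog 2 n := Nat.cast_nonneg _
    nlinarith
  have h := T1_le r (Nat.clog 2 n) hr _ hll (Real.log_le_log hl0 h1)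
  have hpos : (0 : ℝ) < (1 + Real.log (Real.log n) / ((r : ℝ) + 3)) ^ (r - 1) := by positivity
  rw [le_div_iff₀ hpos]
  refine h.trans ?_
  have h6 : ((Nat.clog 2 n : ℝ) + 1) ^ (r + 2) ≤ (5 * Real.log n) ^ (r + 2) :=
    pow_le_pow_left₀ (by positivity) (clog_le n (by omega)) _
  calc (2 : ℝ) ^ (r + 4) * 40000 ^ r * ((Nat.clog 2 n : ℝ) + 1) ^ (r + 2)
      ≤ 2 ^ (r + 4) * 40000 ^ r * (5 * Real.log n) ^ (r + 2) := by gcongr
    _ = (2 ^ (r + 4) * 40000 ^ r * 5 ^ (r + 2)) * Real.log n ^ (r + 2) := by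
        rw [mul_pow]; ring
    _ ≤ 800000 ^ (r + 3) * Real.log n ^ (r + 2) := by
        refine mul_le_mul_of_nonneg_right ?_ (by positivity)
        have e : (800000 : ℝ) ^ (r + 3) = 2 ^ (r + 3) * 2 ^ (r + 3) * 40000 ^ (r + 3) * 5 ^ (r + 3) := by
          rw [← mul_pow, ← mul_pow, ← mul_pow]; norm_num
        rw [e]
        have a1 : (2 : ℝ) ^ (r + 4) ≤ 2 ^ (r + 3) * 2 ^ (r + 3) := by
          rw [show r + 4 = (r + 3) + 1 by ring, pow_succ]
          have : (2 : ℝ) ≤ 2 ^ (r + 3) := by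
            calc (2 : ℝ) = 2 ^ 1 := by norm_num
              _ ≤ 2 ^ (r + 3) := pow_le_pow_right₀ (by norm_num) (by omega)
          exact mul_le_mul_of_nonneg_left this (by positivity)
        have a2 : (40000 : ℝ) ^ r ≤ 40000 ^ (r + 3) := pow_le_pow_right₀ (by norm_num) (by omega)
        have a3 : (5 : ℝ) ^ (r + 2) ≤ 5 ^ (r + 3) := pow_le_pow_right₀ (by norm_num) (by omega)
        gcongr

theorem G_le_ell {c : ℝ} (hc : 1 < c) : G c ≤ (ell c : ℝ) := by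
  have hc0 : 0 < c - 1 := by linarith
  set t := 1 / (c - 1) with ht
  have ht0 : 0 < t := by positivity
  have h1 : Real.logb 2 (8 * lam c ^ 2 + 1) ≤ ell c := Nat.le_ceil _
  refine le_trans ?_ h1
  have hl6 : 6 ≤ lam c := le_max_left _ _
  have hl8 : 8 * t ≤ lam c := by
    refine le_trans (le_of_eq ?_) (le_max_right _ _)
    rw [ht]; ring
  have hbig : Real.exp 1 * (1 + t) ≤ 8 * lam c ^ 2 + 1 := by
    have he := Real.exp_one_lt_d9
    have he2 : Real.exp 1 * (1 + t) ≤ 3 * (1 + t) := by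
      apply mul_le_mul_of_nonneg_right (by linarith) (by linarith)
    nlinarith
  have hlog : 1 + Real.log (1 + t) ≤ Real.log (8 * lam c ^ 2 + 1) := by
    have := Real.log_le_log (by positivity) hbig
    rw [Real.log_mul (Real.exp_pos 1).ne' (by positivity), Real.log_exp] at this
    exact this
  have h0 : 0 ≤ Real.log (8 * lam c ^ 2 + 1) := Real.log_nonneg (by nlinarith)
  have hlb : Real.log (8 * lam c ^ 2 + 1) ≤ Real.logb 2 (8 * lam c ^ 2 + 1) := by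
    unfold Real.logb
    rw [le_div_iff₀ (Real.log_pos (by norm_num))]
    have : Real.log 2 ≤ 1 := by have := Real.log_two_lt_d9; linarith
    nlinarith
  unfold G
  rw [← ht]
  linarith

/-- `T1` at `d * ell c`. -/
theorem T1_ell (r : ℕ) (hr : 1 ≤ r) {c : ℝ} (hc : 1 < c) :
    (T1 r ((r + 2 + 1) * ell c) : ℝ) ≤ (960000 * ((r : ℝ) + 3)) ^ (r + 3) * 2 * (G c ^ (r + 2) /
      (1 + Real.log (G c) / ((r : ℝ) + 3)) ^ (r - 1)) := by
  have hG := one_le_G hc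
  have hll : 0 ≤ Real.log (G c) := Real.log_nonneg hG
  have hGe := G_le_ell hc
  have he := ell_le hc
  have hr0 : (0 : ℝ) < r := by exact_mod_cast hr
  have hl0 : (0 : ℝ) ≤ ell c := Nat.cast_nonneg _
  have h1 : G c ≤ ((((r + 2 + 1) * ell c : ℕ) : ℝ)) + 1 := by
    push_cast
    nlinarith
  have h := T1_le r ((r + 2 + 1) * ell c) hr _ hll (Real.log_le_log (by linarith) h1)
  have hpos : (0 : ℝ) < (1 + Real.log (G c) / ((r : ℝ) + 3)) ^ (r - 1) := by positivity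
  rw [← mul_div_assoc, le_div_iff₀ hpos]
  refine h.trans ?_
  have h2 : ((((r + 2 + 1) * ell c : ℕ) : ℝ)) + 1 ≤ 12 * ((r : ℝ) + 3) * G c := by
    push_cast
    have : ((r : ℝ) + 3) * ((ell c : ℝ) + 1) ≤ ((r : ℝ) + 3) * (12 * G c) :=
      mul_le_mul_of_nonneg_left he (by linarith)
    nlinarith
  have h3 : (((((r + 2 + 1) * ell c : ℕ) : ℝ)) + 1) ^ (r + 2) ≤
      (12 * ((r : ℝ) + 3) * G c) ^ (r + 2) := pow_le_pow_left₀ (by positivity) h2 _
  calc (2 : ℝ) ^ (r + 4) * 40000 ^ r * (((((r + 2 + 1) * ell c : ℕ) : ℝ)) + 1) ^ (r + 2)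
      ≤ 2 ^ (r + 4) * 40000 ^ r * (12 * ((r : ℝ) + 3) * G c) ^ (r + 2) := by gcongr
    _ = (2 ^ (r + 4) * 40000 ^ r * (12 * ((r : ℝ) + 3)) ^ (r + 2)) * G c ^ (r + 2) := by
        rw [mul_pow]; ring
    _ ≤ ((960000 * ((r : ℝ) + 3)) ^ (r + 3) * 2) * G c ^ (r + 2) := by
        refine mul_le_mul_of_nonneg_right ?_ (by positivity)
        have e : (960000 * ((r : ℝ) + 3)) ^ (r + 3) * 2 =
            2 ^ (r + 4) * 40000 ^ (r + 3) * (12 * ((r : ℝ) + 3)) ^ (r + 3) := by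
          rw [show (960000 : ℝ) * ((r : ℝ) + 3) = 2 * 40000 * (12 * ((r : ℝ) + 3)) by ring,
            mul_pow (2 * 40000 : ℝ), mul_pow (2 : ℝ) 40000]
          ring
        rw [e]
        have a2 : (40000 : ℝ) ^ r ≤ 40000 ^ (r + 3) := pow_le_pow_right₀ (by norm_num) (by omega)
        have a3 : (12 * ((r : ℝ) + 3)) ^ (r + 2) ≤ (12 * ((r : ℝ) + 3)) ^ (r + 3) :=
          pow_le_pow_right₀ (by linarith) (by omega)
        gcongr
    _ = (960000 * ((r : ℝ) + 3)) ^ (r + 3) * 2 * G c ^ (r + 2) := by ring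

end Pool.Agent.Helper43.DB.FIN
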