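import Pool.Agent.Helper39.Net.Parts
import Pool.Agent.Helper38.UQ.BOX

/-!
# MP_9b2a83_an, project DB: upper bounds below `(log n)^(d-1)` for fixed `d`

THEOREM. `E_p(n,1,d) ≤ A^d n (log n)^(d-1) / (1 + log log n / d)^(d-4)` (`p = 1`; times `d!` for
`p = ∞`), `C_p(c,d) ≤ (A d)^d L^(d-1) / (1 + log L / d)^(d-4)`.

Points of `ℤ^(r+3)` are pairs `(u, v)`, `u : Fin 3 → ℤ`, `v : Fin r → ℤ`. The coordinates `u 0`, `u 1`
are the exact ones, `u 2` is the order coordinate, the coordinates `v j` are the rounded ones.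
The order on points is the product order.
-/

set_option autoImplicit false

namespace Pool.Agent.Helper43.DB

open Pool.Agent.Helper39.Net Function

/-- Points with three integer coordinates. -/
abbrev P3 : Type := Fin 3 → ℤ

/-- Points with `r + 3` integer coordinates. -/
abbrev PP (r : ℕ) : Type := (Fin 3 → ℤ) × (Fin r → ℤ)

/-- Monotone chains in `S`. -/
def Chain {α : Type} [Preorder α] (S : Set (α × α)) : α → α → Prop :=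
  Relation.ReflTransGen fun u v => (u, v) ∈ S ∧ u ≤ v

/-! ### Three coordinates -/

/-- DB-DOM (2-majority tournaments): three points dominate.

PROOF. `V = ∅`: `D = ∅`. Call `x ∈ V` good if some `z ∈ V` has `y 0 ≤ z 0` and `y 1 ≤ z 1` for all
`y ∈ V` with `x 2 ≤ y 2`. If all `x ∈ V` are good take `x` with the smallest `x 2`, `D = {z}` (`e = 2`).
Otherwise let `n` be a bad point with the largest `n 2` (`Finset.exists_max_image`), `e1, e2 ∈ V` the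
points with the largest coordinate `0` resp. `1` among the `y ∈ V` with `n 2 ≤ y 2`. If there are
`y ∈ V` with `n 2 < y 2`, let `w` be one with the smallest `w 2`; it is good, witness `z`;
`D = {e1, e2, z}` (otherwise `D = {e1, e2}`). Let `x ∈ V`. If `n 2 < x 2` then `w 2 ≤ x 2`, so `z` is
`≥ x` in the coordinates `0, 1`. If `x 2 ≤ n 2 ≤ e1 2, e2 2`: if `x 0 ≤ e1 0` use `e1` (`e = 1`), if
`x 1 ≤ e2 1` use `e2` (`e = 0`); otherwise `x 0 > e1 0`, `x 1 > e2 1`, and `x` would be a witness that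
`n` is good. -/
def G_DOM : Prop := ∀ V : Finset P3, ∃ D ⊆ V, D.card ≤ 3 ∧
  ∀ x ∈ V, ∃ z ∈ D, ∃ e : Fin 3, ∀ i, i ≠ e → x i ≤ z i

/-- DB-CROSS (may assume `G_DOM`): nine hubs for `A ≤ m ≤ B`, from points of `A` or from points of
`B`.

PROOF. First part: `D ⊆ A` from `G_DOM`, `H` = the `update p e (m e)`, `p ∈ D`, `e : Fin 3`. For
`a ∈ A` take `p, e` with `a i ≤ p i` for `i ≠ e` and `q = update p e (m e)`; `a ≤ q` as `a e ≤ m e`, and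
`q ≤ m ≤ b` as `p ≤ m`. Second part: `G_DOM` for `B.image (fun b => -b)` (or `fun b i => -b i`). -/
def G_CROSS : Prop := ∀ (A B : Finset P3) (m : P3), (∀ a ∈ A, a ≤ m) → (∀ b ∈ B, m ≤ b) →
  (∃ H : Finset P3, H.card ≤ 9 ∧ ∀ a ∈ A, ∃ q ∈ H,
    (∃ p ∈ A, ∃ e, q = update p e (m e)) ∧ a ≤ q ∧ ∀ b ∈ B, q ≤ b) ∧
  (∃ H : Finset P3, H.card ≤ 9 ∧ ∀ b ∈ B, ∃ q ∈ H,
    (∃ p ∈ B, ∃ e, q = update p e (m e)) ∧ q ≤ b ∧ ∀ a ∈ A, a ≤ q)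

/-- The positions of hubs: a point of `A ∪ B` with coordinate `0` replaced by `m0`, or coordinate `1`
by `m1`, or coordinate `2` by an end of its dyadic cell of some level `k ≤ J`. -/
def Pos (A B : Finset P3) (m0 m1 : ℤ) (J : ℕ) (q : P3) : Prop :=
  ∃ p ∈ A ∪ B, q = update p 0 m0 ∨ q = update p 1 m1 ∨
    ∃ k ≤ J, ∃ s : ℤ, (s = 0 ∨ s = 1) ∧ q = update p 2 ((p 2 / 2 ^ k + s) * 2 ^ k)

/-- DB-NEAR (may assume `G_CROSS`): hubs for few points `A`.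

PROOF. Induction on `Λ` (for all `A, B`). `Λ = 0`: `A = ∅`. Step: let `A ≠ ∅`, `|A| < 2^(Λ+1)`. Let `k`
be minimal (`Nat.find`) such that some `z` has `|A| < 2 |{a ∈ A | a 2 / 2^k = z}|`; `k ≤ J`, as
`a 2 / 2^J = 0` for all `a ∈ A`. Put `Ao = {a ∈ A | a 2 / 2^k ≠ z}`, so `|Ao| < 2^Λ`; if `k ≥ 1` put
`Al, Ar = {a ∈ A | a 2 / 2^(k-1) = 2 z resp. 2 z + 1}`, by minimality `2 |Al| ≤ |A|`, so `|Al| < 2^Λ`,
the same for `Ar` (for `k = 0` take `Al = Ar = ∅`). `Bo, Bl, Br` the same subsets of `B`. The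
induction hypothesis for `(Ao, Bo)`, `(Al, Bl)`, `(Ar, Br)` gives hubs `hLo, hUo, …`. `G_CROSS`, with
`m = ![m0, m1, ·]`, gives three sets of 9 hubs:
`Hα` from the second part for `{a ∈ A | a 2 < z 2^k}`, `{b ∈ B | b 2 / 2^k = z}`, `m 2 = z 2^k`;
`Hβ` from the first part for `{a ∈ A | a 2 / 2^k = z}`, `{b ∈ B | (z+1) 2^k ≤ b 2}`, `m 2 = (z+1) 2^k`;
`Hγ` (if `k ≥ 1`) from the first part for `Al`, `Br`, `m 2 = (2z+1) 2^(k-1)`.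
`hL a = Hα ∪ Hβ ∪ Hγ ∪ (hLo a if a 2 / 2^k ≠ z, else hLl a if a 2 / 2^(k-1) = 2 z, else hLr a)`, and
`hU b` in the same way. Let `a 2 < b 2`. Cases: both outside (`/ 2^k ≠ z`): induction; `a` outside, `b`
inside: then `a 2 < z 2^k` (as `a 2 < b 2 < (z+1) 2^k` and `a 2 / 2^k ≠ z`), use `Hα`; `a` inside, `b`
outside: `(z+1) 2^k ≤ b 2`, use `Hβ`; both inside: then `k ≥ 1` (for `k = 0` `a 2 = z = b 2`), each
of `a 2 / 2^(k-1)`, `b 2 / 2^(k-1)` is `2 z` or `2 z + 1`, equal: induction; else `a ∈ Al`, `b ∈ Br`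
(`a 2 < b 2`), use `Hγ`. `Pos` is monotone in `A, B`; for the three cross hubs `update p e (m e)`:
`e = 0, 1` clear, `e = 2`: `z 2^k = (p 2 / 2^k + 0) 2^k` for `p` inside; `(z+1) 2^k = (p 2 / 2^k + 1) 2^k`;
`(2z+1) 2^(k-1) = (p 2 / 2^(k-1) + 1) 2^(k-1)` for `p ∈ Al`. -/
def G_NEAR : Prop := ∀ (Λ J : ℕ) (A B : Finset P3) (m0 m1 : ℤ), A.card < 2 ^ Λ →
  (∀ a ∈ A, a 0 ≤ m0 ∧ a 1 ≤ m1 ∧ 0 ≤ a 2 ∧ a 2 < 2 ^ J) → (∀ b ∈ B, m0 ≤ b 0 ∧ m1 ≤ b 1) →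
  ∃ hL hU : P3 → Finset P3, (∀ a, (hL a).card ≤ 27 * Λ) ∧ (∀ b, (hU b).card ≤ 27 * Λ) ∧
    ∀ a ∈ A, ∀ b ∈ B, a 2 < b 2 → ∃ q ∈ hL a, q ∈ hU b ∧ Pos A B m0 m1 J q ∧ a ≤ q ∧ q ≤ b

/-- DB-GAPS: cutting the order coordinate.

PROOF. Strong induction on `|A|`. `|A| < β`: `Q = ∅`. Otherwise let `A1 ⊆ A` be `β` points with the
smallest coordinate `2` (`Pool.Agent.Helper39.Net.exists_low`, there for real functions: use
`fun a => (a 2 : ℝ)`), `M` the largest coordinate `2` on `A1`, `A' = {a ∈ A | M < a 2} ⊆ A \ A1`,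
`Q'` from the induction hypothesis for `A'` (`|A'| ≤ |A| - β`), `Q = insert M Q'`; all elements of
`Q'` are `> M`. `t = 0`: the class consists of points with `a 2 < M` (if `a 2 > M` then `M` is counted);
a point with `a 2 < M` is in `A1` (a point of `A \ A1` is `≥ M`) and is not the one with value `M`, so
the class has `< β` points. `t = t' + 1`: the class is contained in the class of `t'` for `A'`, `Q'`
(for `a 2 > M`: the number of elements `< a 2` of `Q` is one more than for `Q'`; for `a 2 < M` it is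
`0`; `a 2 = M` is excluded). -/
def G_GAPS : Prop := ∀ (β : ℕ), 1 ≤ β → ∀ A : Finset P3, ∃ Q : Finset ℤ, Q.card * β ≤ A.card ∧
  (∀ M ∈ Q, ∃ a ∈ A, a 2 = M) ∧
  ∀ t : ℕ, (A.filter fun a => a 2 ∉ Q ∧ (Q.filter (· < a 2)).card = t).card < β

/-- DB-CELL (may assume `G_NEAR`, `G_GAPS`).

PROOF. `Q` from `G_GAPS` with `β = 2^Λ`. For every `t` apply `G_NEAR` (`choose`) to
`A_t = {a ∈ A | a 2 ∉ Q ∧ #{M ∈ Q | M < a 2} = t}` and `B_t = {b ∈ B | #{M ∈ Q | M < b 2} = t}`; put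
`hL a = hL_t a` with `t = #{M ∈ Q | M < a 2}`, `hU b = hU_t b` with `t = #{M ∈ Q | M < b 2}`. If
`a 2 < b 2` and no `M ∈ Q` has `a 2 ≤ M ≤ b 2` then `a 2 ∉ Q` and the two numbers agree. `Pos` is
monotone in `A, B`. -/
def G_CELL : Prop := ∀ (Λ J : ℕ) (A B : Finset P3) (m0 m1 : ℤ),
  (∀ a ∈ A, a 0 ≤ m0 ∧ a 1 ≤ m1 ∧ 0 ≤ a 2 ∧ a 2 < 2 ^ J) → (∀ b ∈ B, m0 ≤ b 0 ∧ m1 ≤ b 1) →
  ∃ (Q : Finset ℤ) (hL hU : P3 → Finset P3), Q.card * 2 ^ Λ ≤ A.card ∧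
    (∀ a, (hL a).card ≤ 27 * Λ) ∧ (∀ b, (hU b).card ≤ 27 * Λ) ∧
    ∀ a ∈ A, ∀ b ∈ B, a 2 < b 2 → (∃ M ∈ Q, a 2 ≤ M ∧ M ≤ b 2) ∨
      ∃ q ∈ hL a, q ∈ hU b ∧ Pos A B m0 m1 J q ∧ a ≤ q ∧ q ≤ b

/-! ### One key -/

/-- The grid points (offsets `0, …, 2^τ` in each rounded coordinate) of the cell of `z`. -/
def gp {r : ℕ} (τ : ℕ) (g : Fin r → ℕ) (z : Fin r → ℤ) (n : Fin r → ℕ) : Fin r → ℤ :=
  fun j => (z j / 2 ^ (g j + τ) * 2 ^ τ + (n j : ℤ)) * 2 ^ (g j)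

/-- The offsets. -/
def off (r τ : ℕ) : Finset (Fin r → ℕ) := Fintype.piFinset fun _ => Finset.range (2 ^ τ + 1)

/-- The universal edges: a point of `Z` with one of the three coordinates replaced by an end of its
dyadic cell, and two grid points. -/
def UH {r : ℕ} (Z : Finset (PP r)) (J τ : ℕ) (g : Fin r → ℕ) : Finset (PP r × PP r) :=
  (Z ×ˢ (Finset.univ : Finset (Fin 3)) ×ˢ Finset.range (J + 1) ×ˢ Finset.range 2 ×ˢ off r τ ×ˢ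
    off r τ).image fun t =>
    ((update t.1.1 t.2.1 ((t.1.1 t.2.1 / 2 ^ t.2.2.1 + (t.2.2.2.1 : ℤ)) * 2 ^ t.2.2.1),
      gp τ g t.1.2 t.2.2.2.2.1),
     (update t.1.1 t.2.1 ((t.1.1 t.2.1 / 2 ^ t.2.2.1 + (t.2.2.2.1 : ℤ)) * 2 ^ t.2.2.1),
      gp τ g t.1.2 t.2.2.2.2.2))

/-- The pairs with key `(k0, k1, g)`. -/
def KR {r : ℕ} (τ k0 k1 : ℕ) (g : Fin r → ℕ) (a b : PP r) : Prop :=
  a.1 0 / 2 ^ (k0 + 1) = b.1 0 / 2 ^ (k0 + 1) ∧ a.1 0 / 2 ^ k0 < b.1 0 / 2 ^ k0 ∧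
  a.1 1 / 2 ^ (k1 + 1) = b.1 1 / 2 ^ (k1 + 1) ∧ a.1 1 / 2 ^ k1 < b.1 1 / 2 ^ k1 ∧
  a.1 2 < b.1 2 ∧
  ∀ j, a.2 j / 2 ^ (g j + τ) = b.2 j / 2 ^ (g j + τ) ∧ a.2 j / 2 ^ (g j) < b.2 j / 2 ^ (g j)

/-- DB-PATH: the successor pairs of a finite set of integers.

PROOF. Induction on `Q` by adding a new maximum `c` (`Finset.induction_on_max`): add the pair
`(max Q', c)` if `Q' ≠ ∅`. (Compare `Pool.Agent.Helper39.Net.path_net`.) -/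
def G_PATH : Prop := ∀ Q : Finset ℤ, ∃ F : Finset (ℤ × ℤ), F.card ≤ Q.card ∧
  (∀ p ∈ F, p.1 ∈ Q ∧ p.2 ∈ Q) ∧ ∀ M ∈ Q, ∀ M' ∈ Q, M ≤ M' → Chain (F : Set (ℤ × ℤ)) M M'

/-- DB-KEY (may assume `G_CELL`, `G_PATH`): the pairs of one key.

PROOF. `K = |off r τ| = (2^τ+1)^r`. Index of the cell of `x`: `ix x = (x.1 0 / 2^(k0+1),
x.1 1 / 2^(k1+1), fun j => x.2 j / 2^(g j + τ))`. For an index `c = (c0, c1, z)` let
`A_c = {x.1 | x ∈ X, ix x = c, x.1 0 / 2^k0 = 2 c0, x.1 1 / 2^k1 = 2 c1}` (image of a filter),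
`B_c = {y.1 | y ∈ Y, ix y = c, y.1 0 / 2^k0 = 2 c0 + 1, y.1 1 / 2^k1 = 2 c1 + 1}`,
`m0 = (2 c0 + 1) 2^k0`, `m1 = (2 c1 + 1) 2^k1`; so `p 0 < m0` on `A_c`, `m0 ≤ p 0` on `B_c` etc. `G_CELL`
gives `Q_c, hL_c, hU_c`, `G_PATH` gives `F_c` for `Q_c`. Put
`up x j = (x.2 j / 2^(g j) + 1) 2^(g j)`, `dn y j = (y.2 j / 2^(g j)) 2^(g j)`; both are
`gp τ g z n` for some `n ∈ off r τ` and any `z` with the same `z j / 2^(g j + τ)` (`x.2 j / 2^(g j) =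
(x.2 j / 2^(g j + τ)) 2^τ + n0`, `0 ≤ n0 < 2^τ`); `x.2 ≤ up x`, `dn y ≤ y.2`; `grid c` = the
`fun j => (z j * 2^τ + n j) * 2^(g j)`, `n ∈ off r τ`. `ent x` = the least `M ∈ Q_(ix x)` with
`x.1 2 ≤ M`, `ext y` = the greatest `M ∈ Q_(ix y)` with `M ≤ y.1 2` (`0` if there is none). `S` = union of
`S1 = {(x, (q, up x)) | x ∈ X, q ∈ hL_(ix x) x.1}`, `S2 = {((q, dn y), y) | y ∈ Y, q ∈ hU_(ix y) y.1}`,
`S3 = {(x, (![m0, m1, ent x], up x))}`, `S4 = {((![m0, m1, ext y], dn y), y)}`,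
`S5 = {((![m0, m1, M], γ), (![m0, m1, M], γ')) | c ∈ X.image ix, M ∈ Q_c, γ, γ' ∈ grid c}`,
`S6 = {((![m0, m1, M], γ), (![m0, m1, M'], γ)) | c ∈ X.image ix, (M, M') ∈ F_c, γ ∈ grid c}`.
`|S5| + |S6| ≤ ∑_c |Q_c| (K^2 + K) ≤ ∑_c |Q_c| 2^Λ ≤ ∑_c |A_c| ≤ |X|`
(`Finset.card_eq_sum_card_image` for `ix`), so `|S| ≤ 27 Λ (|X| + |Y|) + 2 |X| + |Y|`.
Let `KR a b`: `ix a = ix b =: c`, `a.1 0 / 2^k0 = 2 c0`, `b.1 0 / 2^k0 = 2 c0 + 1` (two different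
numbers with the same quotient by `2`, `Int.ediv_ediv_eq_ediv_mul`), so `a.1 ∈ A_c`, `b.1 ∈ B_c`, and
`up a ≤ dn b`. If some `M ∈ Q_c` has `a.1 2 ≤ M ≤ b.1 2`, then `a.1 2 ≤ ent a ≤ M ≤ ext b ≤ b.1 2`:
chain `a → (![m0,m1,ent a], up a) → (![m0,m1,ent a], dn b) → … → (![m0,m1,ext b], dn b) → b` (`S3`,
`S5`, `S6` lifted from the chain in `F_c` by `Relation.ReflTransGen.lift`, `S4`). Otherwise
`a → (q, up a) → (q, dn b) → b`, the middle edge is in `UH`: `q` is `p` with one coordinate replaced,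
`p = x0.1`, `x0 ∈ X ∪ Y`, `ix x0 = c`; `m0 = (p 0 / 2^k0 + s) 2^k0` with `s = 1` for `p ∈ A_c`, `s = 0`
for `p ∈ B_c`, the same for `m1`. -/
def G_KEY : Prop := ∀ (r τ J Λ k0 k1 : ℕ) (g : Fin r → ℕ) (X Y : Finset (PP r)), k0 ≤ J → k1 ≤ J →
  2 * (2 ^ τ + 1) ^ (2 * r) ≤ 2 ^ Λ → (∀ x ∈ X, 0 ≤ x.1 2 ∧ x.1 2 < 2 ^ J) →
  ∃ S : Finset (PP r × PP r), S.card ≤ (X.card + Y.card) * (27 * Λ + 2) ∧
    ∀ a ∈ X, ∀ b ∈ Y, KR τ k0 k1 g a b →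
      Chain ((S : Set (PP r × PP r)) ∪ (UH (X ∪ Y) J τ g : Set (PP r × PP r))) a b

/-! ### All keys -/

/-- Monotone networks with `T` edges per point, in the cube `[0, 2^J)^(r+3)`. -/
def NetT (r J T : ℕ) : Prop := ∀ X Y : Finset (PP r),
  (∀ x ∈ X ∪ Y, (∀ i, 0 ≤ x.1 i ∧ x.1 i < 2 ^ J) ∧ ∀ j, 0 ≤ x.2 j ∧ x.2 j < 2 ^ J) →
  ∃ S : Finset (PP r × PP r), S.card ≤ (X.card + Y.card) * T ∧
    ∀ a ∈ X, ∀ b ∈ Y, (∀ i, a.1 i < b.1 i) → (∀ j, a.2 j < b.2 j) →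
      Chain (S : Set (PP r × PP r)) a b

/-- The number of edges per point. -/
def TT (r τ J Λ : ℕ) : ℕ :=
  (J / τ + 1) ^ r * (J ^ 2 * (27 * Λ + 2) + 6 * (J + 1) * (2 ^ τ + 1) ^ (2 * r))

/-- DB-SUM (may assume `G_KEY`).

PROOF. Keys: `(k0, k1, e)`, `k0, k1 ∈ range J`, `e ∈ Fintype.piFinset (fun _ => range (J / τ + 1))`,
`g j = τ * e j`. `S` = union over the keys of the sets of `G_KEY` and over the `e` of the
`UH (X ∪ Y) J τ g`; `|UH (X ∪ Y) J τ g| ≤ |X ∪ Y| * 3 * (J+1) * 2 * (2^τ+1)^r * (2^τ+1)^r`. For `a, b`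
and every coordinate: `a i / 2^J = 0 = b i / 2^J`, so
`Pool.Agent.Helper38.UQ.PkBOX.exists_scale` gives `j < J` with `a i / 2^(j+1) = b i / 2^(j+1)`,
`a i / 2^j < b i / 2^j`. For a rounded coordinate let `e = j / τ`, `g = τ e ≤ j < g + τ`: `j + 1 ≤ g + τ`
gives `a / 2^(g+τ) = b / 2^(g+τ)` (`Int.ediv_ediv_eq_ediv_mul` and `pow_add`), and `a / 2^g < b / 2^g`,
since otherwise `b / 2^j ≤ a / 2^j`. -/
def G_SUM : Prop := ∀ r τ J Λ : ℕ, 1 ≤ τ → 2 * (2 ^ τ + 1) ^ (2 * r) ≤ 2 ^ Λ →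
  NetT r J (TT r τ J Λ)

/-! ### Real points -/

/-- Exact networks with `T` edges per point for at most `2 ^ L` points. -/
def ExNet {E : Type} (ρ : E → E → ℝ) (L T : ℕ) : Prop := ∀ Y : Finset E, Y.card ≤ 2 ^ L →
  ∃ S : Finset (E × E), S.card ≤ Y.card * T ∧
    ∀ x ∈ Y, ∀ y ∈ Y, Reach ρ (S : Set (E × E)) x y (ρ x y)

/-- DB-TRANS: from integer points to real points, with the ranks of the coordinates.

PROOF. Let `Z` be given, `s : Fin (r+3) → Bool` a vector of signs (`sg` from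
`Pool.Agent.Helper39.Net`), `rk i x = #{z ∈ Z | sg (s i) * z i < sg (s i) * x i} < 2^L` for `x ∈ Z`.
`lo x : PP r` = `(fun i => 2 * rk (Fin.natAdd r i) x, fun j => 2 * rk (Fin.castAdd 3 j) x)`,
`hi x` = the same plus `1` in every coordinate; all values in `[0, 2^(L+1))`. Apply `NetT` to
`X = Z.image lo`, `Y = Z.image hi`: `S_s`. For each `i` there is a monotone `γ i : ℤ → ℝ` with
`γ i (2 * rk i x) = γ i (2 * rk i x + 1) = sg (s i) * x i` for `x ∈ Z`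
(`MonotoneOn.exists_monotone_extension`; `rk i x ≤ rk i y ↔ sg (s i) * x i ≤ sg (s i) * y i` for
`x, y ∈ Z`: if `sg * y i < sg * x i` then `y` is counted in `rk i x` and not in `rk i y`, and everything
counted in `rk i y` is counted in `rk i x`). `G p : Fin (r+3) → ℝ`,
`G p i = sg (s i) * γ i (coordinate i of p)` (`Fin.addCases p.2 p.1 i`, note `r + 3`). If `p ≤ p'` in
`PP r` then `sg (s i) * (G p' i - G p i) = γ i _ - γ i _ ≥ 0`; so for `p ≤ p' ≤ p''`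
`dOne (G p) (G p') + dOne (G p') (G p'') = dOne (G p) (G p'')`, and a `Chain` from `p` to `p'` in `S_s`
gives `Reach dOne (S_s.image (Prod.map G G)) (G p) (G p') (dOne (G p) (G p'))` (induction on the chain,
which also gives `p ≤ p'`). `S` = the union over `s` (`2^(r+3)` vectors) of these images:
`|S| ≤ 2^(r+3) * (|Z| + |Z|) * T`. For `x, y ∈ Z` choose `s` with `sg (s i) * x i ≤ sg (s i) * y i` for
all `i`; then `2 * rk i x < 2 * rk i y + 1`, `G (lo x) = x`, `G (hi y) = y`. -/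
def G_TRANS : Prop := ∀ r L T : ℕ, NetT r (L + 1) T →
  ExNet (dOne (d := r + 3)) L (2 ^ (r + 4) * T)

/-- DB-INF: from `ℓ_1` to `ℓ_∞`.

PROOF. Copy `Pool.Agent.Helper39.Net.exact_net_inf`, with `exact_net_one k L` replaced by the
hypothesis. -/
def G_INF : Prop := ∀ k L T : ℕ, ExNet (dOne (d := k + 1)) L T →
  ExNet (dInf (d := k + 1)) L ((k + 1).factorial * 2 ^ (k + 1) * T)

/-- DB-UP: from exact networks to `EN` and `CN`.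

PROOF. Copy `upper_one_exact`, `upper_inf_exact`, `upper_one`, `upper_inf` from
`Pool/Agent/Helper39/Net/Bounds.lean` (with `exact_net_one k _ Y hY` replaced by the hypothesis
`h _ Y hY`) and `enough_one`, `ratio_one` from `Parts.lean`; `CN = sSup Ratios`, use
`csSup_le` (`Ratios` is nonempty). -/
def G_UP : Prop := ∀ (k : ℕ) (T : ℕ → ℕ),
  ((∀ L, ExNet (dOne (d := k + 1)) L (T L)) →
    (∀ n : ℕ, 1 ≤ n → EN (dOne (d := k + 1)) n 1 ≤ n * T (Nat.clog 2 n)) ∧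
    ∀ c : ℝ, 1 < c → CN (dOne (d := k + 1)) c ≤ 1 + 6 * 9 ^ (k + 1) * (T ((k + 1) * ell c) : ℝ)) ∧
  ((∀ L, ExNet (dInf (d := k + 1)) L (T L)) →
    (∀ n : ℕ, 1 ≤ n → EN (dInf (d := k + 1)) n 1 ≤ n * T (Nat.clog 2 n)) ∧
    ∀ c : ℝ, 1 < c → CN (dInf (d := k + 1)) c ≤ 1 + 6 * 9 ^ (k + 1) * (T ((k + 1) * ell c) : ℝ))

/-! ### Numbers -/

/-- The width of the rounding. -/
def tau (r J : ℕ) : ℕ := Nat.log 2 J / (4 * r) + 1

/-- The logarithm of the number of points of a gap. -/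
def lamb (r J : ℕ) : ℕ := 2 * r * (tau r J + 1) + 1

/-- DB-NUM.

PROOF. `τ = tau r J ≥ 1`, `y = Nat.log 2 J`, `Λ = lamb r J`. `2^τ + 1 ≤ 2^(τ+1)` gives the first claim.
`τ ≤ J` (`y < J`, so `y / (4 r) + 1 ≤ J`), so as real numbers `J / τ + 1 ≤ 2 J / τ` (`Nat.cast_div_le`).
`27 Λ + 2 ≤ 137 r τ`. `(2^τ+1)^(2r) ≤ 2^(2 r (τ+1)) ≤ 2^(y + 4 r) ≤ 16^r J` as `2 r (y / (4 r)) ≤ y`
(`Nat.mul_div_le` etc.) and `2^y ≤ J`. So `J^2 (27 Λ + 2) + 6 (J+1) (2^τ+1)^(2r) ≤ 137 r τ J^2 +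
12 * 16^r J^2 ≤ 149 * 16^r τ J^2`, and `TT ≤ 149 * 32^r J^(r+2) τ / τ^r`. Finally
`8 τ ≥ 1 + log J / r`: `τ ≥ 1`, `4 r τ ≥ y` (`Nat.lt_mul_div_succ` or similar), so
`8 τ ≥ 4 + y / r ≥ 1 + (y + 1) / r` and `log J ≤ (y + 1) log 2 ≤ y + 1` (`Nat.lt_pow_succ_log_self`).
So `TT * (1 + log J / r)^(r-1) ≤ 149 * 32^r 8^(r-1) J^(r+2)`. -/
def G_NUM : Prop := ∀ r J : ℕ, 1 ≤ r → 1 ≤ J →
  2 * (2 ^ (tau r J) + 1) ^ (2 * r) ≤ 2 ^ (lamb r J) ∧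
  (TT r (tau r J) J (lamb r J) : ℝ) * (1 + Real.log J / r) ^ (r - 1) ≤
    40000 ^ r * (J : ℝ) ^ (r + 2)

end Pool.Agent.Helper43.DB
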