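import Pool.Agent.Helper43.DB.Goals

set_option autoImplicit false

namespace Pool.Agent.Helper43.DB.KEY

open Pool.Agent.Helper43.DB Pool.Agent.Helper39.Net Function

theorem ediv_two {x : ℤ} {k : ℕ} : x / 2 ^ (k + 1) = x / 2 ^ k / 2 := by
  rw [Int.ediv_ediv_of_nonneg (by positivity), ← pow_succ]

theorem ediv_add {x : ℤ} {k l : ℕ} : x / 2 ^ (k + l) = x / 2 ^ k / 2 ^ l := by
  rw [Int.ediv_ediv_of_nonneg (by positivity), ← pow_add]

/-- upper grid point -/
def up {r : ℕ} (g : Fin r → ℕ) (x : PP r) : Fin r → ℤ := fun j => (x.2 j / 2 ^ (g j) + 1) * 2 ^ (g j)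

/-- lower grid point -/
def dn {r : ℕ} (g : Fin r → ℕ) (x : PP r) : Fin r → ℤ := fun j => (x.2 j / 2 ^ (g j)) * 2 ^ (g j)

theorem le_up {r : ℕ} (g : Fin r → ℕ) (x : PP r) : x.2 ≤ up g x := by
  intro j
  have hp : (0 : ℤ) < 2 ^ (g j) := by positivity
  have h1 := Int.emod_lt_of_pos (x.2 j) hp
  have h2 := Int.mul_ediv_add_emod (x.2 j) (2 ^ (g j))
  unfold up
  nlinarith

theorem dn_le {r : ℕ} (g : Fin r → ℕ) (x : PP r) : dn g x ≤ x.2 := by
  intro j
  unfold dn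
  exact Int.ediv_mul_le _ (by positivity)

theorem up_le_dn {r : ℕ} {g : Fin r → ℕ} {x y : PP r}
    (h : ∀ j, x.2 j / 2 ^ (g j) < y.2 j / 2 ^ (g j)) : up g x ≤ dn g y := by
  intro j
  unfold up dn
  exact mul_le_mul_of_nonneg_right (h j) (by positivity)

theorem up_mem {r τ : ℕ} (g : Fin r → ℕ) (x : PP r) : ∃ n ∈ off r τ,
    up g x = fun j => (x.2 j / 2 ^ (g j + τ) * 2 ^ τ + (n j : ℤ)) * 2 ^ (g j) := by
  refine ⟨fun j => (x.2 j / 2 ^ (g j) - x.2 j / 2 ^ (g j + τ) * 2 ^ τ + 1).toNat, ?_, ?_⟩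
  · refine Fintype.mem_piFinset.2 fun j => Finset.mem_range.2 ?_
    have hp : (0 : ℤ) < 2 ^ τ := by positivity
    have h1 := Int.emod_lt_of_pos (x.2 j / 2 ^ (g j)) hp
    have h2 := Int.mul_ediv_add_emod (x.2 j / 2 ^ (g j)) (2 ^ τ)
    have h3 := Int.emod_nonneg (x.2 j / 2 ^ (g j)) hp.ne'
    rw [ediv_add]
    have h4 : x.2 j / 2 ^ (g j) - x.2 j / 2 ^ (g j) / 2 ^ τ * 2 ^ τ + 1 < 2 ^ τ + 1 := by linarith
    have h5 : ((2 ^ τ + 1 : ℕ) : ℤ) = 2 ^ τ + 1 := by push_cast; ring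
    omega
  · funext j
    have hp : (0 : ℤ) < 2 ^ τ := by positivity
    have h2 := Int.mul_ediv_add_emod (x.2 j / 2 ^ (g j)) (2 ^ τ)
    have h3 := Int.emod_nonneg (x.2 j / 2 ^ (g j)) hp.ne'
    have h6 := ediv_add (x := x.2 j) (k := g j) (l := τ)
    have h7 : ((x.2 j / 2 ^ (g j) - x.2 j / 2 ^ (g j + τ) * 2 ^ τ + 1).toNat : ℤ) =
        x.2 j / 2 ^ (g j) - x.2 j / 2 ^ (g j + τ) * 2 ^ τ + 1 :=
      Int.toNat_of_nonneg (by rw [h6]; linarith)
    unfold up
    beta_reduce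
    rw [h7]
    ring

theorem dn_mem {r τ : ℕ} (g : Fin r → ℕ) (x : PP r) : ∃ n ∈ off r τ,
    dn g x = fun j => (x.2 j / 2 ^ (g j + τ) * 2 ^ τ + (n j : ℤ)) * 2 ^ (g j) := by
  refine ⟨fun j => (x.2 j / 2 ^ (g j) - x.2 j / 2 ^ (g j + τ) * 2 ^ τ).toNat, ?_, ?_⟩
  · refine Fintype.mem_piFinset.2 fun j => Finset.mem_range.2 ?_
    have hp : (0 : ℤ) < 2 ^ τ := by positivity
    have h1 := Int.emod_lt_of_pos (x.2 j / 2 ^ (g j)) hp
    have h2 := Int.mul_ediv_add_emod (x.2 j / 2 ^ (g j)) (2 ^ τ)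
    have h3 := Int.emod_nonneg (x.2 j / 2 ^ (g j)) hp.ne'
    rw [ediv_add]
    have h4 : x.2 j / 2 ^ (g j) - x.2 j / 2 ^ (g j) / 2 ^ τ * 2 ^ τ < 2 ^ τ + 1 := by linarith
    have h5 : ((2 ^ τ + 1 : ℕ) : ℤ) = 2 ^ τ + 1 := by push_cast; ring
    omega
  · funext j
    have hp : (0 : ℤ) < 2 ^ τ := by positivity
    have h2 := Int.mul_ediv_add_emod (x.2 j / 2 ^ (g j)) (2 ^ τ)
    have h3 := Int.emod_nonneg (x.2 j / 2 ^ (g j)) hp.ne'
    have h6 := ediv_add (x := x.2 j) (k := g j) (l := τ)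
    have h7 : ((x.2 j / 2 ^ (g j) - x.2 j / 2 ^ (g j + τ) * 2 ^ τ).toNat : ℤ) =
        x.2 j / 2 ^ (g j) - x.2 j / 2 ^ (g j + τ) * 2 ^ τ :=
      Int.toNat_of_nonneg (by rw [h6]; linarith)
    unfold dn
    beta_reduce
    rw [h7]
    ring

theorem off_card (r τ : ℕ) : (off r τ).card = (2 ^ τ + 1) ^ r := by
  unfold off
  rw [Fintype.card_piFinset]
  simp

/-- The index of the cell. -/
def ix {r : ℕ} (τ k0 k1 : ℕ) (g : Fin r → ℕ) (x : PP r) : ℤ × ℤ × (Fin r → ℤ) :=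
  (x.1 0 / 2 ^ (k0 + 1), x.1 1 / 2 ^ (k1 + 1), fun j => x.2 j / 2 ^ (g j + τ))

theorem exists_ent (Q : Finset ℤ) (x : ℤ) : ∃ e : ℤ, (∃ M ∈ Q, x ≤ M) →
    e ∈ Q ∧ x ≤ e ∧ ∀ M ∈ Q, x ≤ M → e ≤ M := by
  by_cases h : ∃ M ∈ Q, x ≤ M
  · obtain ⟨M, hM, hxM⟩ := h
    obtain ⟨e, he, hmin⟩ := Finset.exists_min_image (Q.filter fun M => x ≤ M) id
      ⟨M, Finset.mem_filter.2 ⟨hM, hxM⟩⟩
    rw [Finset.mem_filter] at he
    exact ⟨e, fun _ => ⟨he.1, he.2, fun M' hM' hx' => hmin M' (Finset.mem_filter.2 ⟨hM', hx'⟩)⟩⟩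
  · exact ⟨0, fun h' => absurd h' h⟩

theorem exists_ext (Q : Finset ℤ) (x : ℤ) : ∃ e : ℤ, (∃ M ∈ Q, M ≤ x) →
    e ∈ Q ∧ e ≤ x ∧ ∀ M ∈ Q, M ≤ x → M ≤ e := by
  by_cases h : ∃ M ∈ Q, M ≤ x
  · obtain ⟨M, hM, hxM⟩ := h
    obtain ⟨e, he, hmax⟩ := Finset.exists_max_image (Q.filter fun M => M ≤ x) id
      ⟨M, Finset.mem_filter.2 ⟨hM, hxM⟩⟩
    rw [Finset.mem_filter] at he
    exact ⟨e, fun _ => ⟨he.1, he.2, fun M' hM' hx' => hmax M' (Finset.mem_filter.2 ⟨hM', hx'⟩)⟩⟩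
  · exact ⟨0, fun h' => absurd h' h⟩

theorem chain_mono {α : Type} [Preorder α] {S S' : Set (α × α)} (h : S ⊆ S') {a b : α}
    (hab : Chain S a b) : Chain S' a b :=
  Relation.ReflTransGen.mono (fun _ _ h' => ⟨h h'.1, h'.2⟩) _ _ hab

theorem chain_edge {α : Type} [Preorder α] {S : Set (α × α)} {a b : α} (h : (a, b) ∈ S)
    (hab : a ≤ b) : Chain S a b := Relation.ReflTransGen.single ⟨h, hab⟩

set_option maxHeartbeats 4000000 in
theorem key (hcell : G_CELL) (hpath : G_PATH) : G_KEY := by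
  classical
  intro r τ J Λ k0 k1 g X Y hk0 hk1 hΛ hX
  set I : PP r → ℤ × ℤ × (Fin r → ℤ) := ix τ k0 k1 g with hI
  set AX : (ℤ × ℤ × (Fin r → ℤ)) → Finset (PP r) := fun c =>
    X.filter fun x => I x = c ∧ x.1 0 / 2 ^ k0 = 2 * c.1 ∧ x.1 1 / 2 ^ k1 = 2 * c.2.1 with hAX
  set BY : (ℤ × ℤ × (Fin r → ℤ)) → Finset (PP r) := fun c =>
    Y.filter fun y => I y = c ∧ y.1 0 / 2 ^ k0 = 2 * c.1 + 1 ∧ y.1 1 / 2 ^ k1 = 2 * c.2.1 + 1
    with hBY
  set m0 : (ℤ × ℤ × (Fin r → ℤ)) → ℤ := fun c => (2 * c.1 + 1) * 2 ^ k0 with hm0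
  set m1 : (ℤ × ℤ × (Fin r → ℤ)) → ℤ := fun c => (2 * c.2.1 + 1) * 2 ^ k1 with hm1
  have hp0 : (0 : ℤ) < 2 ^ k0 := by positivity
  have hp1 : (0 : ℤ) < 2 ^ k1 := by positivity
  have hA : ∀ c, ∀ a ∈ (AX c).image Prod.fst, a 0 ≤ m0 c ∧ a 1 ≤ m1 c ∧ 0 ≤ a 2 ∧ a 2 < 2 ^ J := by
    intro c a ha
    obtain ⟨x, hx, rfl⟩ := Finset.mem_image.1 ha
    rw [hAX, Finset.mem_filter] at hx
    refine ⟨?_, ?_, hX x hx.1⟩
    · exact ((Int.ediv_lt_iff_lt_mul hp0).1 (by omega)).le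
    · exact ((Int.ediv_lt_iff_lt_mul hp1).1 (by omega)).le
  have hB : ∀ c, ∀ b ∈ (BY c).image Prod.fst, m0 c ≤ b 0 ∧ m1 c ≤ b 1 := by
    intro c a ha
    obtain ⟨x, hx, rfl⟩ := Finset.mem_image.1 ha
    rw [hBY, Finset.mem_filter] at hx
    refine ⟨?_, ?_⟩
    · exact (Int.le_ediv_iff_mul_le hp0).1 (by omega)
    · exact (Int.le_ediv_iff_mul_le hp1).1 (by omega)
  choose Q hL hU hQ hLc hUc hmain using fun c => hcell Λ J ((AX c).image Prod.fst)
    ((BY c).image Prod.fst) (m0 c) (m1 c) (hA c) (hB c)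
  choose F hF hFQ hFch using fun c => hpath (Q c)
  choose ent hent using fun c x => exists_ent (Q c) x
  choose ext hext using fun c x => exists_ext (Q c) x
  set gr : (ℤ × ℤ × (Fin r → ℤ)) → (Fin r → ℕ) → (Fin r → ℤ) := fun c n j =>
    (c.2.2 j * 2 ^ τ + (n j : ℤ)) * 2 ^ (g j) with hgr
  set S1 : Finset (PP r × PP r) := X.biUnion fun x => (hL (I x) x.1).image fun q => (x, (q, up g x))
    with hS1
  set S2 : Finset (PP r × PP r) := Y.biUnion fun y => (hU (I y) y.1).image fun q => ((q, dn g y), y)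
    with hS2
  set S3 : Finset (PP r × PP r) := X.image fun x =>
    (x, ((![m0 (I x), m1 (I x), ent (I x) (x.1 2)] : P3), up g x)) with hS3
  set S4 : Finset (PP r × PP r) := Y.image fun y =>
    (((![m0 (I y), m1 (I y), ext (I y) (y.1 2)] : P3), dn g y), y) with hS4
  set S5 : Finset (PP r × PP r) := (X.image I).biUnion fun c => (Q c ×ˢ off r τ ×ˢ off r τ).image
    fun t => (((![m0 c, m1 c, t.1] : P3), gr c t.2.1), ((![m0 c, m1 c, t.1] : P3), gr c t.2.2))
    with hS5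
  set S6 : Finset (PP r × PP r) := (X.image I).biUnion fun c => (F c ×ˢ off r τ).image
    fun t => (((![m0 c, m1 c, t.1.1] : P3), gr c t.2), ((![m0 c, m1 c, t.1.2] : P3), gr c t.2))
    with hS6
  refine ⟨S1 ∪ S2 ∪ S3 ∪ S4 ∪ (S5 ∪ S6), ?_, ?_⟩
  · -- the number of edges
    have c1 : S1.card ≤ X.card * (27 * Λ) :=
      Finset.card_biUnion_le_card_mul _ _ _ fun x _ => Finset.card_image_le.trans (hLc _ _)
    have c2 : S2.card ≤ Y.card * (27 * Λ) :=
      Finset.card_biUnion_le_card_mul _ _ _ fun x _ => Finset.card_image_le.trans (hUc _ _)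
    have c3 : S3.card ≤ X.card := Finset.card_image_le
    have c4 : S4.card ≤ Y.card := Finset.card_image_le
    have c56 : (S5 ∪ S6).card ≤ X.card := by
      have h5 : S5.card ≤ ∑ c ∈ X.image I, (Q c).card * ((2 ^ τ + 1) ^ (2 * r)) := by
        refine Finset.card_biUnion_le.trans (Finset.sum_le_sum fun c _ => ?_)
        refine Finset.card_image_le.trans ?_
        rw [Finset.card_product, Finset.card_product, off_card, ← pow_add, two_mul]
      have h6 : S6.card ≤ ∑ c ∈ X.image I, (Q c).card * ((2 ^ τ + 1) ^ (2 * r)) := by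
        refine Finset.card_biUnion_le.trans (Finset.sum_le_sum fun c _ => ?_)
        refine Finset.card_image_le.trans ?_
        rw [Finset.card_product, off_card]
        exact Nat.mul_le_mul (hF c) (Nat.pow_le_pow_right (by positivity) (by omega))
      have h7 : (S5 ∪ S6).card ≤ ∑ c ∈ X.image I, (Q c).card * (2 * (2 ^ τ + 1) ^ (2 * r)) := by
        refine (Finset.card_union_le _ _).trans ((Nat.add_le_add h5 h6).trans (le_of_eq ?_))
        rw [← Finset.sum_add_distrib]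
        exact Finset.sum_congr rfl fun c _ => by ring
      refine h7.trans ?_
      rw [Finset.card_eq_sum_card_image I X]
      refine Finset.sum_le_sum fun c _ => ?_
      refine (Nat.mul_le_mul_left _ hΛ).trans ((hQ c).trans (Finset.card_image_le.trans ?_))
      refine Finset.card_le_card fun x hx => ?_
      rw [hAX, Finset.mem_filter] at hx
      exact Finset.mem_filter.2 ⟨hx.1, hx.2.1⟩
    have hu1 := Finset.card_union_le (S1 ∪ S2 ∪ S3 ∪ S4) (S5 ∪ S6)
    have hu2 := Finset.card_union_le (S1 ∪ S2 ∪ S3) S4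
    have hu3 := Finset.card_union_le (S1 ∪ S2) S3
    have hu4 := Finset.card_union_le S1 S2
    have e : (X.card + Y.card) * (27 * Λ + 2) = X.card * (27 * Λ) + Y.card * (27 * Λ) +
        2 * X.card + 2 * Y.card := by ring
    rw [e]
    omega
  · -- the chains
    intro a ha b hb hab
    obtain ⟨h0, h0', h1, h1', h2, h3⟩ := hab
    have hIab : I b = I a := by
      simp only [hI, ix]
      rw [h0, h1]
      refine Prod.ext rfl (Prod.ext rfl ?_)
      funext j
      exact (h3 j).1.symm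
    set c := I a with hc
    have hc0 : c.1 = a.1 0 / 2 ^ (k0 + 1) := rfl
    have hc1 : c.2.1 = a.1 1 / 2 ^ (k1 + 1) := rfl
    have hc2 : ∀ j, c.2.2 j = a.2 j / 2 ^ (g j + τ) := fun j => rfl
    have hc2' : ∀ j, c.2.2 j = b.2 j / 2 ^ (g j + τ) := fun j => (h3 j).1
    have e0 : a.1 0 / 2 ^ k0 / 2 = b.1 0 / 2 ^ k0 / 2 := by rw [← ediv_two, ← ediv_two, h0]
    have e1 : a.1 1 / 2 ^ k1 / 2 = b.1 1 / 2 ^ k1 / 2 := by rw [← ediv_two, ← ediv_two, h1]
    rw [ediv_two] at hc0 hc1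
    have haA : a ∈ AX c := by
      rw [hAX, Finset.mem_filter]
      refine ⟨ha, rfl, ?_, ?_⟩
      · rw [hc0]; omega
      · rw [hc1]; omega
    have hbB : b ∈ BY c := by
      rw [hBY, Finset.mem_filter]
      refine ⟨hb, hIab, ?_, ?_⟩
      · rw [hc0]; omega
      · rw [hc1]; omega
    have ha3 := hA c a.1 (Finset.mem_image_of_mem _ haA)
    have hb3 := hB c b.1 (Finset.mem_image_of_mem _ hbB)
    have hud : up g a ≤ dn g b := up_le_dn fun j => (h3 j).2
    obtain ⟨n, hn, hna⟩ := up_mem (τ := τ) g a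
    obtain ⟨n', hn', hnb⟩ := dn_mem (τ := τ) g b
    have hna' : up g a = gr c n := by
      rw [hna]
      rfl
    have hnb' : dn g b = gr c n' := by
      rw [hnb, hgr]
      funext j
      simp only
      rw [hc2']
    have hcX : c ∈ X.image I := Finset.mem_image_of_mem _ ha
    rcases hmain c a.1 (Finset.mem_image_of_mem _ haA) b.1 (Finset.mem_image_of_mem _ hbB) h2 with
      ⟨M, hM, hM1, hM2⟩ | ⟨q, hqL, hqU, hqP, haq, hqb⟩
    · -- far
      obtain ⟨he1, he2, he3⟩ := hent c (a.1 2) ⟨M, hM, hM1⟩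
      obtain ⟨hx1, hx2, hx3⟩ := hext c (b.1 2) ⟨M, hM, hM2⟩
      have hle : ent c (a.1 2) ≤ ext c (b.1 2) := (he3 M hM hM1).trans (hx3 M hM hM2)
      have s1 : Chain ((S1 ∪ S2 ∪ S3 ∪ S4 ∪ (S5 ∪ S6) : Finset (PP r × PP r)) : Set (PP r × PP r))
          a ((![m0 c, m1 c, ent c (a.1 2)] : P3), up g a) := by
        refine chain_edge ?_ ⟨?_, le_up g a⟩
        · refine Finset.mem_coe.2 (Finset.mem_union_left _ (Finset.mem_union_left _
            (Finset.mem_union_right _ ?_)))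
          exact Finset.mem_image.2 ⟨a, ha, rfl⟩
        · intro i
          fin_cases i
          · exact ha3.1
          · exact ha3.2.1
          · exact he2
      have s2 : Chain ((S1 ∪ S2 ∪ S3 ∪ S4 ∪ (S5 ∪ S6) : Finset (PP r × PP r)) : Set (PP r × PP r))
          ((![m0 c, m1 c, ent c (a.1 2)] : P3), up g a)
          ((![m0 c, m1 c, ent c (a.1 2)] : P3), dn g b) := by
        refine chain_edge ?_ ⟨le_rfl, hud⟩
        refine Finset.mem_coe.2 (Finset.mem_union_right _ (Finset.mem_union_left _ ?_))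
        refine Finset.mem_biUnion.2 ⟨c, hcX, Finset.mem_image.2 ⟨(ent c (a.1 2), n, n'), ?_, ?_⟩⟩
        · simp only [Finset.mem_product]
          exact ⟨he1, hn, hn'⟩
        · simp only
          rw [hna', hnb']
      have s3 : Chain ((S1 ∪ S2 ∪ S3 ∪ S4 ∪ (S5 ∪ S6) : Finset (PP r × PP r)) : Set (PP r × PP r))
          ((![m0 c, m1 c, ent c (a.1 2)] : P3), dn g b)
          ((![m0 c, m1 c, ext c (b.1 2)] : P3), dn g b) := by
        have hch := hFch c _ he1 _ hx1 hle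
        refine Relation.ReflTransGen.lift (fun M : ℤ => ((![m0 c, m1 c, M] : P3), dn g b)) ?_ _ _ hch
        intro u v huv
        refine ⟨?_, ⟨?_, le_rfl⟩⟩
        · refine Finset.mem_coe.2 (Finset.mem_union_right _ (Finset.mem_union_right _ ?_))
          refine Finset.mem_biUnion.2 ⟨c, hcX, Finset.mem_image.2 ⟨((u, v), n'), ?_, ?_⟩⟩
          · simp only [Finset.mem_product]
            exact ⟨Finset.mem_coe.1 huv.1, hn'⟩
          · simp only
            rw [hnb']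
        · intro i
          fin_cases i
          · exact le_rfl
          · exact le_rfl
          · exact huv.2
      have s4 : Chain ((S1 ∪ S2 ∪ S3 ∪ S4 ∪ (S5 ∪ S6) : Finset (PP r × PP r)) : Set (PP r × PP r))
          ((![m0 c, m1 c, ext c (b.1 2)] : P3), dn g b) b := by
        refine chain_edge ?_ ⟨?_, dn_le g b⟩
        · refine Finset.mem_coe.2 (Finset.mem_union_left _ (Finset.mem_union_right _ ?_))
          refine Finset.mem_image.2 ⟨b, hb, ?_⟩
          simp only [hIab]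
        · intro i
          fin_cases i
          · exact hb3.1
          · exact hb3.2
          · exact hx2
      exact chain_mono Set.subset_union_left (s1.trans (s2.trans (s3.trans s4)))
    · -- near
      have s1 : Chain ((S1 ∪ S2 ∪ S3 ∪ S4 ∪ (S5 ∪ S6) : Finset (PP r × PP r)) : Set (PP r × PP r))
          a (q, up g a) := by
        refine chain_edge ?_ ⟨haq, le_up g a⟩
        refine Finset.mem_coe.2 (Finset.mem_union_left _ (Finset.mem_union_left _
          (Finset.mem_union_left _ (Finset.mem_union_left _ ?_))))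
        exact Finset.mem_biUnion.2 ⟨a, ha, Finset.mem_image.2 ⟨q, hqL, rfl⟩⟩
      have s3 : Chain ((S1 ∪ S2 ∪ S3 ∪ S4 ∪ (S5 ∪ S6) : Finset (PP r × PP r)) : Set (PP r × PP r))
          (q, dn g b) b := by
        refine chain_edge ?_ ⟨hqb, dn_le g b⟩
        refine Finset.mem_coe.2 (Finset.mem_union_left _ (Finset.mem_union_left _
          (Finset.mem_union_left _ (Finset.mem_union_right _ ?_))))
        refine Finset.mem_biUnion.2 ⟨b, hb, Finset.mem_image.2 ⟨q, ?_, rfl⟩⟩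
        rw [hIab]
        exact hqU
      have s2 : Chain (UH (X ∪ Y) J τ g : Set (PP r × PP r)) (q, up g a) (q, dn g b) := by
        refine chain_edge ?_ ⟨le_rfl, hud⟩
        obtain ⟨p, hp, hpq⟩ := hqP
        -- the point and its cell
        obtain ⟨x0, hx0, hx0I, rfl, s, hs, hs0, hs1⟩ : ∃ x0 ∈ X ∪ Y, I x0 = c ∧ x0.1 = p ∧
            ∃ s : ℕ, s < 2 ∧ m0 c = (p 0 / 2 ^ k0 + (s : ℤ)) * 2 ^ k0 ∧
            m1 c = (p 1 / 2 ^ k1 + (s : ℤ)) * 2 ^ k1 := by
          rcases Finset.mem_union.1 hp with hp | hp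
          · obtain ⟨x, hx, rfl⟩ := Finset.mem_image.1 hp
            rw [hAX, Finset.mem_filter] at hx
            refine ⟨x, Finset.mem_union_left _ hx.1, hx.2.1, rfl, 1, by norm_num, ?_, ?_⟩
            · rw [hx.2.2.1, hm0]; push_cast; ring
            · rw [hx.2.2.2, hm1]; push_cast; ring
          · obtain ⟨x, hx, rfl⟩ := Finset.mem_image.1 hp
            rw [hBY, Finset.mem_filter] at hx
            refine ⟨x, Finset.mem_union_right _ hx.1, hx.2.1, rfl, 0, by norm_num, ?_, ?_⟩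
            · rw [hx.2.2.1, hm0]; push_cast; ring
            · rw [hx.2.2.2, hm1]; push_cast; ring
        have hgp : ∀ n : Fin r → ℕ, gp τ g x0.2 n = gr c n := by
          intro n
          rw [hgr, ← hx0I]
          rfl
        -- the three cases
        have hkey : ∀ (e : Fin 3) (k : ℕ) (s' : ℕ), k ≤ J → s' < 2 →
            q = update x0.1 e ((x0.1 e / 2 ^ k + (s' : ℤ)) * 2 ^ k) →
            ((q, up g a), (q, dn g b)) ∈ (UH (X ∪ Y) J τ g : Set (PP r × PP r)) := by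
          intro e k s' hk hs' hq
          refine Finset.mem_coe.2 (Finset.mem_image.2 ⟨(x0, e, k, s', n, n'), ?_, ?_⟩)
          · simp only [Finset.mem_product, Finset.mem_univ, Finset.mem_range, true_and]
            exact ⟨hx0, by omega, hs', hn, hn'⟩
          · simp only
            rw [hgp, hgp, ← hq, hna', hnb']
        rcases hpq with h | h | ⟨k, hk, s', hs', h⟩
        · refine hkey 0 k0 s hk0 hs ?_
          rw [h, hs0]
        · refine hkey 1 k1 s hk1 hs ?_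
          rw [h, hs1]
        · rcases hs' with rfl | rfl
          · exact hkey 2 k 0 hk (by norm_num) (by rw [h]; rfl)
          · exact hkey 2 k 1 hk (by norm_num) (by rw [h]; rfl)
      exact (chain_mono Set.subset_union_left s1).trans
        ((chain_mono Set.subset_union_right s2).trans (chain_mono Set.subset_union_left s3))

end Pool.Agent.Helper43.DB.KEY
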