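import Pool.Agent.Helper43.DB.DOM
import Pool.Agent.Helper43.DB.CELL

set_option autoImplicit false

namespace Pool.Agent.Helper43.DB.NEAR

open Pool.Agent.Helper43.DB Pool.Agent.Helper39.Net Function Pool.Agent.Helper43.DB.CELL

/-- the two halves -/
theorem half {x z : ℤ} {k : ℕ} (h : x / 2 ^ (k + 1) = z) : x / 2 ^ k = 2 * z ∨ x / 2 ^ k = 2 * z + 1 := by
  have h1 : x / 2 ^ k / 2 = z := by
    rw [Int.ediv_ediv_of_nonneg (by positivity), ← pow_succ, h]
  omega

theorem lt_of_ediv_lt {x : ℤ} {z : ℤ} {k : ℕ} (h : x / 2 ^ k < z) : x < z * 2 ^ k := by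
  have hp : (0 : ℤ) < 2 ^ k := by positivity
  exact (Int.ediv_lt_iff_lt_mul hp).1 h

theorem le_of_le_ediv {x : ℤ} {z : ℤ} {k : ℕ} (h : z ≤ x / 2 ^ k) : z * 2 ^ k ≤ x := by
  have hp : (0 : ℤ) < 2 ^ k := by positivity
  exact (Int.le_ediv_iff_mul_le hp).1 h

theorem ediv_mono {x y : ℤ} {k : ℕ} (h : x ≤ y) : x / 2 ^ k ≤ y / 2 ^ k :=
  Int.ediv_le_ediv (by positivity) h

theorem near (hcross : G_CROSS) : G_NEAR := by
  classical
  intro Λ
  induction Λ with
  | zero =>
    intro J A B m0 m1 hA _ _
    have : A = ∅ := by rw [← Finset.card_eq_zero]; simpa using hA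
    subst this
    exact ⟨fun _ => ∅, fun _ => ∅, by simp, by simp, by simp⟩
  | succ Λ ih =>
    intro J A B m0 m1 hcard hA hB
    rcases A.eq_empty_or_nonempty with rfl | hne
    · exact ⟨fun _ => ∅, fun _ => ∅, by simp, by simp, by simp⟩
    have hex : ∃ k : ℕ, ∃ z : ℤ, A.card < 2 * (A.filter fun a => a 2 / 2 ^ k = z).card := by
      refine ⟨J, 0, ?_⟩
      have : (A.filter fun a => a 2 / 2 ^ J = 0) = A := by
        refine Finset.filter_true_of_mem fun a ha => ?_
        exact Int.ediv_eq_zero_of_lt (hA a ha).2.2.1 (hA a ha).2.2.2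
      rw [this]
      have := hne.card_pos
      omega
    have hkJ : Nat.find hex ≤ J := by
      refine Nat.find_min' hex ⟨0, ?_⟩
      have : (A.filter fun a => a 2 / 2 ^ J = 0) = A := by
        refine Finset.filter_true_of_mem fun a ha => ?_
        exact Int.ediv_eq_zero_of_lt (hA a ha).2.2.1 (hA a ha).2.2.2
      rw [this]
      have := hne.card_pos
      omega
    obtain ⟨z, hz⟩ := Nat.find_spec hex
    have hmin : ∀ l : ℕ, l < Nat.find hex → ∀ z : ℤ,
        2 * (A.filter fun a => a 2 / 2 ^ l = z).card ≤ A.card := by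
      intro l hl z'
      by_contra hcon
      push Not at hcon
      exact Nat.find_min hex hl ⟨z', hcon⟩
    generalize Nat.find hex = k at hkJ hz hmin
    -- outside
    have hAo : (A.filter fun a => ¬ a 2 / 2 ^ k = z).card < 2 ^ Λ := by
      have h1 := Finset.card_filter_add_card_filter_not (s := A) (fun a => a 2 / 2 ^ k = z)
      rw [pow_succ] at hcard
      omega
    obtain ⟨Lo, Uo, hLo, hUo, hro⟩ := ih J _ (B.filter fun b => ¬ b 2 / 2 ^ k = z) m0 m1 hAo
      (fun a ha => hA a (Finset.mem_filter.1 ha).1) (fun b hb => hB b (Finset.mem_filter.1 hb).1)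
    -- left of I, I
    obtain ⟨-, Hα, hHα, hα⟩ := hcross (A.filter fun a => a 2 < z * 2 ^ k)
      (B.filter fun b => b 2 / 2 ^ k = z) ![m0, m1, z * 2 ^ k] (by
        intro a ha i
        rw [Finset.mem_filter] at ha
        have := hA a ha.1
        fin_cases i
        · exact this.1
        · exact this.2.1
        · exact ha.2.le) (by
        intro b hb i
        rw [Finset.mem_filter] at hb
        have := hB b hb.1
        fin_cases i
        · exact this.1
        · exact this.2
        · exact le_of_le_ediv hb.2.ge)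
    -- I, right of I
    obtain ⟨⟨Hβ, hHβ, hβ⟩, -⟩ := hcross (A.filter fun a => a 2 / 2 ^ k = z)
      (B.filter fun b => (z + 1) * 2 ^ k ≤ b 2) ![m0, m1, (z + 1) * 2 ^ k] (by
        intro a ha i
        rw [Finset.mem_filter] at ha
        have := hA a ha.1
        fin_cases i
        · exact this.1
        · exact this.2.1
        · exact (lt_of_ediv_lt (x := a 2) (by omega)).le) (by
        intro b hb i
        rw [Finset.mem_filter] at hb
        have := hB b hb.1
        fin_cases i
        · exact this.1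
        · exact this.2
        · exact hb.2)
    -- the halves
    obtain ⟨Li, Ui, hLi, hUi, hri⟩ : ∃ Li Ui : P3 → Finset P3, (∀ a, (Li a).card ≤ 27 * Λ + 9) ∧
        (∀ b, (Ui b).card ≤ 27 * Λ + 9) ∧ ∀ a ∈ A, ∀ b ∈ B, a 2 / 2 ^ k = z → b 2 / 2 ^ k = z →
        a 2 < b 2 → ∃ q ∈ Li a, q ∈ Ui b ∧ Pos A B m0 m1 J q ∧ a ≤ q ∧ q ≤ b := by
      rcases Nat.eq_zero_or_pos k with hk0 | hkpos
      · subst hk0
        refine ⟨fun _ => ∅, fun _ => ∅, by simp, by simp, ?_⟩
        intro a _ b _ h1 h2 hab
        simp only [pow_zero, Int.ediv_one] at h1 h2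
        omega
      · obtain ⟨l, rfl⟩ : ∃ l, k = l + 1 := ⟨k - 1, by omega⟩
        have hAh : ∀ z' : ℤ, (A.filter fun a => a 2 / 2 ^ l = z').card < 2 ^ Λ := by
          intro z'
          have := hmin l (by omega) z'
          rw [pow_succ] at hcard
          omega
        choose L U hL hU hr using fun z' : ℤ => ih J (A.filter fun a => a 2 / 2 ^ l = z')
          (B.filter fun b => b 2 / 2 ^ l = z') m0 m1 (hAh z')
          (fun a ha => hA a (Finset.mem_filter.1 ha).1) (fun b hb => hB b (Finset.mem_filter.1 hb).1)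
        obtain ⟨⟨Hγ, hHγ, hγ⟩, -⟩ := hcross (A.filter fun a => a 2 / 2 ^ l = 2 * z)
          (B.filter fun b => b 2 / 2 ^ l = 2 * z + 1) ![m0, m1, (2 * z + 1) * 2 ^ l] (by
            intro a ha i
            rw [Finset.mem_filter] at ha
            have := hA a ha.1
            fin_cases i
            · exact this.1
            · exact this.2.1
            · exact (lt_of_ediv_lt (x := a 2) (by omega)).le) (by
            intro b hb i
            rw [Finset.mem_filter] at hb
            have := hB b hb.1
            fin_cases i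
            · exact this.1
            · exact this.2
            · exact le_of_le_ediv hb.2.ge)
        refine ⟨fun a => L (a 2 / 2 ^ l) a ∪ Hγ, fun b => U (b 2 / 2 ^ l) b ∪ Hγ, ?_, ?_, ?_⟩
        · intro a
          exact (Finset.card_union_le _ _).trans (Nat.add_le_add (hL _ a) hHγ)
        · intro b
          exact (Finset.card_union_le _ _).trans (Nat.add_le_add (hU _ b) hHγ)
        · intro a ha b hb hz1 hz2 hab
          by_cases heq : a 2 / 2 ^ l = b 2 / 2 ^ l
          · obtain ⟨q, hq1, hq2, hq3, hq4⟩ := hr (a 2 / 2 ^ l) a (Finset.mem_filter.2 ⟨ha, rfl⟩) b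
              (Finset.mem_filter.2 ⟨hb, heq.symm⟩) hab
            refine ⟨q, Finset.mem_union_left _ hq1, ?_,
              pos_mono (Finset.filter_subset _ _) (Finset.filter_subset _ _) hq3, hq4⟩
            simp only
            rw [← heq]
            exact Finset.mem_union_left _ hq2
          · have hle : a 2 / 2 ^ l ≤ b 2 / 2 ^ l := ediv_mono hab.le
            have h1 := half hz1
            have h2 := half hz2
            have ha2 : a 2 / 2 ^ l = 2 * z := by omega
            have hb2 : b 2 / 2 ^ l = 2 * z + 1 := by omega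
            obtain ⟨q, hq, ⟨p, hp, e, hqe⟩, haq, hqb⟩ := hγ a (Finset.mem_filter.2 ⟨ha, ha2⟩)
            rw [Finset.mem_filter] at hp
            refine ⟨q, Finset.mem_union_right _ hq, Finset.mem_union_right _ hq, ?_, haq,
              hqb b (Finset.mem_filter.2 ⟨hb, hb2⟩)⟩
            refine ⟨p, Finset.mem_union_left _ hp.1, ?_⟩
            fin_cases e
            · exact Or.inl hqe
            · exact Or.inr (Or.inl hqe)
            · refine Or.inr (Or.inr ⟨l, by omega, 1, Or.inr rfl, ?_⟩)
              rw [hp.2]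
              exact hqe
    refine ⟨fun a => Hα ∪ Hβ ∪ (if a 2 / 2 ^ k = z then Li a else Lo a),
      fun b => Hα ∪ Hβ ∪ (if b 2 / 2 ^ k = z then Ui b else Uo b), ?_, ?_, ?_⟩
    · intro a
      refine (Finset.card_union_le _ _).trans ?_
      have h1 := Finset.card_union_le Hα Hβ
      have h2 := hLi a
      have h3 := hLo a
      split_ifs <;> omega
    · intro b
      refine (Finset.card_union_le _ _).trans ?_
      have h1 := Finset.card_union_le Hα Hβ
      have h2 := hUi b
      have h3 := hUo b
      split_ifs <;> omega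
    · intro a ha b hb hab
      by_cases haz : a 2 / 2 ^ k = z
      · by_cases hbz : b 2 / 2 ^ k = z
        · obtain ⟨q, hq1, hq2, hq3⟩ := hri a ha b hb haz hbz hab
          refine ⟨q, ?_, ?_, hq3⟩
          · simp only [if_pos haz]
            exact Finset.mem_union_right _ hq1
          · simp only [if_pos hbz]
            exact Finset.mem_union_right _ hq2
        · have hle : a 2 / 2 ^ k ≤ b 2 / 2 ^ k := ediv_mono hab.le
          have hb2 : (z + 1) * 2 ^ k ≤ b 2 := le_of_le_ediv (by omega)
          obtain ⟨q, hq, ⟨p, hp, e, hqe⟩, haq, hqb⟩ := hβ a (Finset.mem_filter.2 ⟨ha, haz⟩)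
          rw [Finset.mem_filter] at hp
          refine ⟨q, Finset.mem_union_left _ (Finset.mem_union_right _ hq),
            Finset.mem_union_left _ (Finset.mem_union_right _ hq), ?_, haq,
            hqb b (Finset.mem_filter.2 ⟨hb, hb2⟩)⟩
          refine ⟨p, Finset.mem_union_left _ hp.1, ?_⟩
          fin_cases e
          · exact Or.inl hqe
          · exact Or.inr (Or.inl hqe)
          · refine Or.inr (Or.inr ⟨k, hkJ, 1, Or.inr rfl, ?_⟩)
            rw [hp.2]
            exact hqe
      · by_cases hbz : b 2 / 2 ^ k = z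
        · have hle : a 2 / 2 ^ k ≤ b 2 / 2 ^ k := ediv_mono hab.le
          have ha2 : a 2 < z * 2 ^ k := lt_of_ediv_lt (by omega)
          obtain ⟨q, hq, ⟨p, hp, e, hqe⟩, hqb, haq⟩ := hα b (Finset.mem_filter.2 ⟨hb, hbz⟩)
          rw [Finset.mem_filter] at hp
          refine ⟨q, Finset.mem_union_left _ (Finset.mem_union_left _ hq),
            Finset.mem_union_left _ (Finset.mem_union_left _ hq), ?_,
            haq a (Finset.mem_filter.2 ⟨ha, ha2⟩), hqb⟩
          refine ⟨p, Finset.mem_union_right _ hp.1, ?_⟩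
          fin_cases e
          · exact Or.inl hqe
          · exact Or.inr (Or.inl hqe)
          · refine Or.inr (Or.inr ⟨k, hkJ, 0, Or.inl rfl, ?_⟩)
            rw [hp.2, add_zero]
            exact hqe
        · obtain ⟨q, hq1, hq2, hq3, hq4⟩ := hro a (Finset.mem_filter.2 ⟨ha, haz⟩) b
            (Finset.mem_filter.2 ⟨hb, hbz⟩) hab
          refine ⟨q, ?_, ?_, pos_mono (Finset.filter_subset _ _) (Finset.filter_subset _ _) hq3, hq4⟩
          · simp only [if_neg haz]
            exact Finset.mem_union_right _ hq1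
          · simp only [if_neg hbz]
            exact Finset.mem_union_right _ hq2

end Pool.Agent.Helper43.DB.NEAR
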