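import Pool.Agent.Helper43.DB.KEY
import Pool.Agent.Helper43.DB.NEAR

set_option autoImplicit false

namespace Pool.Agent.Helper43.DB.SUM

open Pool.Agent.Helper43.DB Pool.Agent.Helper39.Net Function Pool.Agent.Helper43.DB.KEY

theorem uh_card {r : ℕ} (Z : Finset (PP r)) (J τ : ℕ) (g : Fin r → ℕ) :
    (UH Z J τ g).card ≤ Z.card * (6 * (J + 1) * (2 ^ τ + 1) ^ (2 * r)) := by
  unfold UH
  refine Finset.card_image_le.trans (le_of_eq ?_)
  simp only [Finset.card_product, off_card, Finset.card_univ, Fintype.card_fin, Finset.card_range]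
  rw [two_mul r, pow_add]
  ring

theorem sum (hkey : G_KEY) : G_SUM := by
  classical
  intro r τ J Λ hτ hΛ X Y hXY
  have hX : ∀ x ∈ X, 0 ≤ x.1 2 ∧ x.1 2 < 2 ^ J := fun x hx =>
    (hXY x (Finset.mem_union_left _ hx)).1 2
  -- the keys
  set KS : Finset (ℕ × ℕ × (Fin r → ℕ)) := Finset.range J ×ˢ Finset.range J ×ˢ
    Fintype.piFinset (fun _ : Fin r => Finset.range (J / τ + 1)) with hKS
  have hKSc : KS.card = J ^ 2 * (J / τ + 1) ^ r := by
    rw [hKS, Finset.card_product, Finset.card_product, Finset.card_range, Fintype.card_piFinset]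
    simp only [Finset.card_range, Finset.prod_const, Finset.card_univ, Fintype.card_fin]
    ring
  have hex : ∀ t : ℕ × ℕ × (Fin r → ℕ), ∃ S : Finset (PP r × PP r), (t.1 ≤ J → t.2.1 ≤ J →
      (S.card ≤ (X.card + Y.card) * (27 * Λ + 2) ∧ ∀ a ∈ X, ∀ b ∈ Y,
        KR τ t.1 t.2.1 (fun j => τ * t.2.2 j) a b → Chain ((S : Set (PP r × PP r)) ∪
          (UH (X ∪ Y) J τ (fun j => τ * t.2.2 j) : Set (PP r × PP r))) a b)) := by
    intro t
    by_cases h1 : t.1 ≤ J
    · by_cases h2 : t.2.1 ≤ J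
      · obtain ⟨S, hS⟩ := hkey r τ J Λ t.1 t.2.1 (fun j => τ * t.2.2 j) X Y h1 h2 hΛ hX
        exact ⟨S, fun _ _ => hS⟩
      · exact ⟨∅, fun _ h => absurd h h2⟩
    · exact ⟨∅, fun h => absurd h h1⟩
  choose S hS using hex
  set ES : Finset (Fin r → ℕ) := Fintype.piFinset (fun _ : Fin r => Finset.range (J / τ + 1))
    with hES
  have hESc : ES.card = (J / τ + 1) ^ r := by
    rw [hES, Fintype.card_piFinset]
    simp
  refine ⟨KS.biUnion S ∪ ES.biUnion fun e => UH (X ∪ Y) J τ (fun j => τ * e j), ?_, ?_⟩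
  · have h1 : (KS.biUnion S).card ≤ KS.card * ((X.card + Y.card) * (27 * Λ + 2)) := by
      refine Finset.card_biUnion_le_card_mul _ _ _ fun t ht => ?_
      rw [hKS, Finset.mem_product, Finset.mem_product, Finset.mem_range, Finset.mem_range] at ht
      exact (hS t (by omega) (by omega)).1
    have h2 : (ES.biUnion fun e => UH (X ∪ Y) J τ (fun j => τ * e j)).card ≤
        ES.card * ((X.card + Y.card) * (6 * (J + 1) * (2 ^ τ + 1) ^ (2 * r))) := by
      refine Finset.card_biUnion_le_card_mul _ _ _ fun e _ => ?_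
      exact (uh_card _ _ _ _).trans (Nat.mul_le_mul_right _ (Finset.card_union_le _ _))
    refine (Finset.card_union_le _ _).trans ((Nat.add_le_add h1 h2).trans (le_of_eq ?_))
    rw [hKSc, hESc]
    unfold TT
    ring
  · intro a ha b hb h1 h2
    have hsc : ∀ x y : ℤ, x < y → 0 ≤ x → x < 2 ^ J → 0 ≤ y → y < 2 ^ J → ∃ j : ℕ, j < J ∧
        x / 2 ^ (j + 1) = y / 2 ^ (j + 1) ∧ x / 2 ^ j < y / 2 ^ j := by
      intro x y hxy hx0 hx1 hy0 hy1
      obtain ⟨j, hj, hj1, hj2⟩ := Pool.Agent.Helper38.UQ.PkBOX.exists_scale x y hxy J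
        (by rw [Int.ediv_eq_zero_of_lt hx0 hx1, Int.ediv_eq_zero_of_lt hy0 hy1])
      exact ⟨j, by omega, hj1, hj2⟩
    have hxa := hXY a (Finset.mem_union_left _ ha)
    have hxb := hXY b (Finset.mem_union_right _ hb)
    obtain ⟨k0, hk0, hk01, hk02⟩ := hsc _ _ (h1 0) (hxa.1 0).1 (hxa.1 0).2 (hxb.1 0).1 (hxb.1 0).2
    obtain ⟨k1, hk1, hk11, hk12⟩ := hsc _ _ (h1 1) (hxa.1 1).1 (hxa.1 1).2 (hxb.1 1).1 (hxb.1 1).2
    choose s hs hs1 hs2 using fun j => hsc _ _ (h2 j) (hxa.2 j).1 (hxa.2 j).2 (hxb.2 j).1 (hxb.2 j).2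
    have hkr : KR τ k0 k1 (fun j => τ * (s j / τ)) a b := by
      refine ⟨hk01, hk02, hk11, hk12, h1 2, fun j => ⟨?_, ?_⟩⟩
      · have hlt : s j < τ * (s j / τ) + τ := by
          have := Nat.lt_mul_div_succ (s j) (show 0 < τ by omega)
          rw [Nat.mul_add, Nat.mul_one] at this
          exact this
        obtain ⟨l, hl⟩ : ∃ l, τ * (s j / τ) + τ = s j + 1 + l := ⟨_, (Nat.add_sub_of_le hlt).symm⟩
        rw [hl, ediv_add, ediv_add (x := b.2 j), hs1 j]
      · obtain ⟨l, hl⟩ : ∃ l, s j = τ * (s j / τ) + l := ⟨_, (Nat.add_sub_of_le (Nat.mul_div_le _ _)).symm⟩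
        by_contra hcon
        push Not at hcon
        have h3 := hs2 j
        have h4 : b.2 j / 2 ^ (s j) ≤ a.2 j / 2 ^ (s j) := by
          rw [hl, ediv_add, ediv_add (x := a.2 j)]
          exact Int.ediv_le_ediv (by positivity) hcon
        omega
    have hmem : (fun j => s j / τ) ∈ ES := by
      rw [hES]
      refine Fintype.mem_piFinset.2 fun j => Finset.mem_range.2 ?_
      have := Nat.div_le_div_right (c := τ) (hs j).le
      omega
    have hch := (hS (k0, k1, fun j => s j / τ) hk0.le hk1.le).2 a ha b hb hkr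
    refine chain_mono ?_ hch
    intro p hp
    rcases hp with hp | hp
    · refine Finset.mem_coe.2 (Finset.mem_union_left _ (Finset.mem_biUnion.2 ⟨_, ?_, Finset.mem_coe.1 hp⟩))
      rw [hKS]
      simp only [Finset.mem_product, Finset.mem_range]
      exact ⟨hk0, hk1, hmem⟩
    · exact Finset.mem_coe.2 (Finset.mem_union_right _ (Finset.mem_biUnion.2
        ⟨_, hmem, Finset.mem_coe.1 hp⟩))

/-- The integer networks. -/
theorem netT : G_SUM := sum (key (CELL.cell (NEAR.near DOM.cross)) DOM.path)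

end Pool.Agent.Helper43.DB.SUM
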